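import Mathlib
import Pool.Agent.Lib.MP_04276e_nt.Main

set_option autoImplicit false

namespace Pool.Agent.Lib.MP_04276e_nt.Ins

open MeasureTheory Finset Filter

noncomputable section

lemma volume_nat_le (q : ℕ) (hq : 0 < q) (x r : ℝ) :
    volume {t : UnitAddCircle | ‖q • t + (x : UnitAddCircle)‖ ≤ r} ≤ ENNReal.ofReal (2 * r) := by
  rcases le_total r (1 / 2) with h | h
  · exact (volume_single q hq x r h).le
  · refine (measure_mono (Set.subset_univ _)).trans ?_
    rw [AddCircle.measure_univ]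
    apply ENNReal.ofReal_le_ofReal
    linarith

lemma volume_int_le (q : ℤ) (hq : q ≠ 0) (x r : ℝ) :
    volume {t : UnitAddCircle | ‖q • t + (x : UnitAddCircle)‖ ≤ r} ≤ ENNReal.ofReal (2 * r) := by
  rcases Int.eq_nat_or_neg q with ⟨k, h | h⟩
  · subst h
    have hk : 0 < k := by
      rcases Nat.eq_zero_or_pos k with h0 | h0
      · subst h0; simp at hq
      · exact h0
    simpa only [natCast_zsmul] using volume_nat_le k hk x r
  · subst h
    have hk : 0 < k := by
      rcases Nat.eq_zero_or_pos k with h0 | h0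
      · subst h0; simp at hq
      · exact h0
    have e : {t : UnitAddCircle | ‖(-(k : ℤ)) • t + (x : UnitAddCircle)‖ ≤ r} =
        {t : UnitAddCircle | ‖k • t + ((-x : ℝ) : UnitAddCircle)‖ ≤ r} := by
      ext t
      have : (-(k : ℤ)) • t + (x : UnitAddCircle) = -(k • t + ((-x : ℝ) : UnitAddCircle)) := by
        rw [neg_smul, natCast_zsmul, AddCircle.coe_neg]
        abel
      rw [Set.mem_ofPred_eq, Set.mem_ofPred_eq, this, norm_neg]
    rw [e]
    exact volume_nat_le k hk (-x) r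

lemma ae_real_of_circle (P : UnitAddCircle → Prop) (h : ∀ᵐ u : UnitAddCircle ∂volume, P u) :
    ∀ᵐ t : ℝ ∂volume, P (t : UnitAddCircle) := by
  have h1 : ∀ a : ℤ, ∀ᵐ t : ℝ ∂volume, t ∈ Set.Ioc (a : ℝ) (a + 1) → P (t : UnitAddCircle) := by
    intro a
    have h2 := (AddCircle.measurePreserving_mk (1 : ℝ) (a : ℝ)).quasiMeasurePreserving.ae h
    rwa [ae_restrict_iff' measurableSet_Ioc] at h2
  rw [← ae_all_iff] at h1
  filter_upwards [h1] with t ht
  apply ht (⌈t⌉ - 1)
  push_cast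
  constructor
  · have := Int.ceil_lt_add_one t
    linarith
  · have := Int.le_ceil t
    linarith

/-- Borel-Cantelli -/
lemma ae_finite (m : ℕ) (r : (Fin (m + 2) → ℤ) → ℝ) (hr : ∀ n, 0 ≤ r n) (hs : Summable r)
    (α : Fin (m + 1) → ℝ) :
    ∀ᵐ t : ℝ ∂volume, {n : Fin (m + 2) → ℤ | n (Fin.last (m + 1)) ≠ 0 ∧
      nn (∑ i : Fin (m + 1), (n (Fin.castSucc i) : ℝ) * α i + (n (Fin.last (m + 1)) : ℝ) * t)
        < r n}.Finite := by
  set s : (Fin (m + 2) → ℤ) → Set UnitAddCircle := fun n =>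
    if n (Fin.last (m + 1)) = 0 then ∅ else
      {u : UnitAddCircle | ‖n (Fin.last (m + 1)) • u +
        ((∑ i : Fin (m + 1), (n (Fin.castSucc i) : ℝ) * α i : ℝ) : UnitAddCircle)‖ ≤ r n} with hsdef
  have hvol : ∀ n, volume (s n) ≤ ENNReal.ofReal (2 * r n) := by
    intro n
    simp only [hsdef]
    split_ifs with h
    · simp
    · exact volume_int_le _ h _ _
  have hsum : ∑' n, volume (s n) ≠ ⊤ := by
    have h2 : Summable (fun n => 2 * r n) := hs.mul_left 2
    have h3 := ENNReal.ofReal_tsum_of_nonneg (fun n => by have := hr n; positivity) h2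
    refine ne_top_of_le_ne_top ?_ (ENNReal.tsum_le_tsum hvol)
    rw [← h3]
    exact ENNReal.ofReal_ne_top
  have hae := ae_finite_setOfPred_mem hsum
  have h4 := ae_real_of_circle _ hae
  filter_upwards [h4] with t ht
  refine ht.subset ?_
  rintro n ⟨h5, h6⟩
  rw [Set.mem_ofPred_eq]
  simp only [hsdef]
  rw [if_neg h5, Set.mem_ofPred_eq]
  rw [nn_eq_norm, AddCircle.coe_add, add_comm] at h6
  refine le_trans (le_of_eq ?_) h6.le
  congr 2
  rw [← zsmul_eq_mul]
  rfl

lemma sum_pi_box (k : ℕ) (f : ℤ → ℝ) (B : Finset ℤ) :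
    ∑ n ∈ Fintype.piFinset (fun _ : Fin k => B), ∏ i, f (n i) = (∑ j ∈ B, f j) ^ k := by
  rw [← Finset.prod_univ_sum (fun _ : Fin k => B) (fun _ j => f j), Finset.prod_const,
    Finset.card_univ, Fintype.card_fin]

lemma summable_pi (k : ℕ) (f : ℤ → ℝ) (hf0 : ∀ i, 0 ≤ f i) (hf : Summable f) :
    Summable (fun n : Fin k → ℤ => ∏ i, f (n i)) := by
  have h0 : ∀ n : Fin k → ℤ, 0 ≤ ∏ i, f (n i) := fun n => Finset.prod_nonneg (fun i _ => hf0 _)
  have hb : ∀ u : Finset (Fin k → ℤ), ∑ n ∈ u, ∏ i, f (n i) ≤ (∑' i, f i) ^ k := by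
    intro u
    set B : Finset ℤ := u.biUnion (fun n => Finset.univ.image n) with hB
    have hsub : u ⊆ Fintype.piFinset (fun _ : Fin k => B) := by
      intro n hn
      rw [Fintype.mem_piFinset]
      intro i
      rw [hB, Finset.mem_biUnion]
      exact ⟨n, hn, Finset.mem_image_of_mem _ (Finset.mem_univ i)⟩
    have h1 : ∑ n ∈ u, ∏ i, f (n i) ≤ ∑ n ∈ Fintype.piFinset (fun _ : Fin k => B), ∏ i, f (n i) :=
      Finset.sum_le_sum_of_subset_of_nonneg hsub (fun n _ _ => h0 n)
    rw [sum_pi_box] at h1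
    refine h1.trans ?_
    apply pow_le_pow_left₀
    · exact Finset.sum_nonneg (fun j _ => hf0 j)
    · exact hf.sum_le_tsum _ (fun j _ => hf0 j)
  exact summable_of_sum_le h0 hb

/-- the height -/
def Hn {k : ℕ} (n : Fin k → ℤ) : ℕ := ∏ i, max (n i).natAbs 2

lemma Hn_cast {k : ℕ} (n : Fin k → ℤ) : ((Hn n : ℕ) : ℝ) = ∏ i, max |(n i : ℝ)| 2 := by
  unfold Hn
  rw [Nat.cast_prod]
  apply Finset.prod_congr rfl
  intro i _
  rw [Nat.cast_max, Nat.cast_natAbs, Int.cast_abs]
  norm_num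

lemma Hn_pos {k : ℕ} (n : Fin k → ℤ) : 1 ≤ Hn n := by
  unfold Hn
  apply Nat.one_le_iff_ne_zero.mpr
  rw [Finset.prod_ne_zero_iff]
  intro i _
  have := le_max_right (n i).natAbs 2
  omega

lemma summable_Hn (k : ℕ) (b : ℝ) (hb : 1 < b) :
    Summable (fun n : Fin k → ℤ => ((Hn n : ℕ) : ℝ) ^ (-b)) := by
  have h1 : Summable (fun i : ℤ => (max |(i : ℝ)| 2) ^ (-b)) := by
    have h2 : Summable (fun i : ℤ => |(i : ℝ)| ^ (-b) + (if i = 0 then (1 : ℝ) else 0)) := by
      apply (Real.summable_abs_int_rpow hb).add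
      apply summable_of_ne_finset_zero (s := {0})
      intro i hi
      rw [Finset.mem_singleton] at hi
      rw [if_neg hi]
    apply Summable.of_nonneg_of_le _ _ h2
    · intro i
      positivity
    · intro i
      by_cases hi : i = 0
      · subst hi
        simp only [Int.cast_zero, abs_zero, if_true]
        have h3 : (max (0 : ℝ) 2) ^ (-b) ≤ 1 := by
          apply Real.rpow_le_one_of_one_le_of_nonpos
          · simp
          · linarith
        have h4 : (0 : ℝ) ≤ (0 : ℝ) ^ (-b) := Real.rpow_nonneg (le_refl _) _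
        linarith
      · rw [if_neg hi, add_zero]
        apply Real.rpow_le_rpow_of_nonpos
        · rw [abs_pos]
          exact_mod_cast hi
        · exact le_max_left _ _
        · linarith
  have h5 := summable_pi k (fun i : ℤ => (max |(i : ℝ)| 2) ^ (-b)) (fun i => by positivity) h1
  apply h5.congr
  intro n
  rw [Hn_cast, ← Real.finsetProd_rpow]
  intro i _
  positivity

end

end Pool.Agent.Lib.MP_04276e_nt.Ins
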