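import Mathlib
import Pool.Agent.Lib.MP_04276e_nt.Ins.BC

set_option autoImplicit false

namespace Pool.Agent.Lib.MP_04276e_nt.Ins

open MeasureTheory Finset Filter

noncomputable section

/-- reverse condensation -/
lemma condense_rev (ψ : ℕ → ℝ) (hψ : Antitone ψ) (h0 : ∀ n, 0 ≤ ψ n) (d : ℕ)
    (h : Summable (fun n : ℕ => ψ n * Real.log n ^ d)) :
    Summable (fun j : ℕ => (2 : ℝ) ^ j * ψ (2 ^ j) * ((j : ℝ) + 1) ^ d) := by
  have hlog : ∀ n : ℕ, 0 ≤ Real.log n := fun n => Real.log_natCast_nonneg n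
  have hf0 : ∀ n : ℕ, 0 ≤ ψ n * Real.log n ^ d := by
    intro n
    have := h0 n
    have := hlog n
    positivity
  have hl2 : 0 < Real.log 2 := Real.log_pos (by norm_num)
  rw [← summable_nat_add_iff 2]
  set K0 : ℝ := 2 * (3 / Real.log 2) ^ d with hK0
  have hB : Summable (fun j : ℕ => ∑ n ∈ Finset.Ioc (2 ^ (j + 1)) (2 ^ (j + 2)),
      ψ n * Real.log n ^ d) := by
    apply summable_of_sum_range_le (c := ∑' n : ℕ, ψ n * Real.log n ^ d)
    · intro j
      exact Finset.sum_nonneg (fun n _ => hf0 n)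
    · intro J
      have h1 : ∑ j ∈ Finset.range J, ∑ n ∈ Finset.Ioc (2 ^ (j + 1)) (2 ^ (j + 2)),
          ψ n * Real.log n ^ d = ∑ n ∈ Finset.Ioc (2 ^ 1) (2 ^ (J + 1)), ψ n * Real.log n ^ d := by
        induction J with
        | zero => simp
        | succ J ih =>
          rw [Finset.sum_range_succ, ih]
          exact Finset.sum_Ioc_consecutive _ (Nat.pow_le_pow_right (by norm_num) (by omega))
            (Nat.pow_le_pow_right (by norm_num) (by omega))
      rw [h1]
      exact h.sum_le_tsum _ (fun n _ => hf0 n)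
  refine Summable.of_nonneg_of_le ?_ ?_ (hB.mul_left K0)
  · intro j
    have := h0 (2 ^ (j + 2))
    positivity
  · intro j
    have h2 : (2 : ℝ) ^ (j + 1) * (ψ (2 ^ (j + 2)) * (((j : ℝ) + 1) * Real.log 2) ^ d) ≤
        ∑ n ∈ Finset.Ioc (2 ^ (j + 1)) (2 ^ (j + 2)), ψ n * Real.log n ^ d := by
      have h3 : ∑ _n ∈ Finset.Ioc (2 ^ (j + 1)) (2 ^ (j + 2)),
          (ψ (2 ^ (j + 2)) * (((j : ℝ) + 1) * Real.log 2) ^ d) =
          (2 : ℝ) ^ (j + 1) * (ψ (2 ^ (j + 2)) * (((j : ℝ) + 1) * Real.log 2) ^ d) := by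
        rw [Finset.sum_const, Nat.card_Ioc, nsmul_eq_mul]
        have : 2 ^ (j + 2) - 2 ^ (j + 1) = 2 ^ (j + 1) := by
          rw [pow_succ 2 (j + 1)]
          omega
        rw [this]
        push_cast
        rfl
      rw [← h3]
      apply Finset.sum_le_sum
      intro n hn
      have hn' := Finset.mem_Ioc.mp hn
      have h4 := hψ hn'.2
      have h5 : ((j : ℝ) + 1) * Real.log 2 ≤ Real.log n := by
        have h6 : (2 : ℝ) ^ (j + 1) ≤ n := by exact_mod_cast hn'.1.le
        have h7 := Real.log_le_log (by positivity) h6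
        rw [Real.log_pow] at h7
        push_cast at h7
        exact h7
      have h8 : 0 ≤ ((j : ℝ) + 1) * Real.log 2 := by positivity
      apply mul_le_mul h4 (pow_le_pow_left₀ h8 h5 d) (by positivity) (h0 n)
    have h9 : (((j + 2 : ℕ) : ℝ) + 1) ^ d ≤ (3 / Real.log 2) ^ d * (((j : ℝ) + 1) * Real.log 2) ^ d := by
      rw [← mul_pow]
      apply pow_le_pow_left₀ (by positivity)
      have : 3 / Real.log 2 * (((j : ℝ) + 1) * Real.log 2) = 3 * ((j : ℝ) + 1) := by
        field_simp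
      rw [this]
      push_cast
      have : (0 : ℝ) ≤ j := Nat.cast_nonneg j
      linarith
    have h10 := h0 (2 ^ (j + 2))
    calc (2 : ℝ) ^ (j + 2) * ψ (2 ^ (j + 2)) * (((j + 2 : ℕ) : ℝ) + 1) ^ d
        ≤ (2 : ℝ) ^ (j + 2) * ψ (2 ^ (j + 2)) *
          ((3 / Real.log 2) ^ d * (((j : ℝ) + 1) * Real.log 2) ^ d) := by gcongr
      _ = K0 * ((2 : ℝ) ^ (j + 1) * (ψ (2 ^ (j + 2)) * (((j : ℝ) + 1) * Real.log 2) ^ d)) := by
          rw [hK0]
          ring
      _ ≤ _ := by
          apply mul_le_mul_of_nonneg_left h2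
          rw [hK0]
          positivity

lemma summable_exponents (k : ℕ) (h : ℕ → ℝ) (hn : ∀ j, 0 ≤ h j)
    (hs : Summable (fun j : ℕ => h j * ((j : ℝ) + 1) ^ k)) :
    Summable (fun e : Fin (k + 1) → ℕ => h (∑ i, e i)) := by
  apply summable_of_sum_le (c := ∑' j : ℕ, h j * ((j : ℝ) + 1) ^ k) (fun e => hn _)
  intro u
  set J : Finset ℕ := u.image (fun e => ∑ i, e i) with hJ
  have h1 : ∑ e ∈ u, h (∑ i, e i) = ∑ j ∈ J, ∑ e ∈ u.filter (fun e => ∑ i, e i = j), h (∑ i, e i) :=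
    (Finset.sum_fiberwise_of_maps_to (fun e he => Finset.mem_image_of_mem _ he) _).symm
  rw [h1]
  have h2 : ∀ j ∈ J, ∑ e ∈ u.filter (fun e => ∑ i, e i = j), h (∑ i, e i) ≤
      h j * ((j : ℝ) + 1) ^ k := by
    intro j _
    have h3 : ∑ e ∈ u.filter (fun e => ∑ i, e i = j), h (∑ i, e i) =
        ((u.filter (fun e => ∑ i, e i = j)).card : ℝ) * h j := by
      rw [← nsmul_eq_mul, ← Finset.sum_const]
      apply Finset.sum_congr rfl
      intro e he
      rw [(Finset.mem_filter.mp he).2]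
    rw [h3, mul_comm]
    apply mul_le_mul_of_nonneg_left _ (hn j)
    have h4 : (u.filter (fun e => ∑ i, e i = j)).card ≤
        (Fintype.piFinset (fun _ : Fin k => Finset.range (j + 1))).card := by
      apply Finset.card_le_card_of_injOn (fun e => fun i => e (Fin.castSucc i))
      · intro e he
        have he' := (Finset.mem_filter.mp he).2
        rw [Finset.mem_coe, Fintype.mem_piFinset]
        intro i
        rw [Finset.mem_range]
        have : e (Fin.castSucc i) ≤ ∑ i, e i :=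
          Finset.single_le_sum (f := e) (fun _ _ => Nat.zero_le _) (Finset.mem_univ _)
        change e (Fin.castSucc i) < j + 1
        omega
      · intro e he e' he' hee
        have h5 := (Finset.mem_filter.mp he).2
        have h6 := (Finset.mem_filter.mp he').2
        rw [Fin.sum_univ_castSucc] at h5 h6
        have h7 : ∀ i : Fin k, e (Fin.castSucc i) = e' (Fin.castSucc i) := fun i => congrFun hee i
        have h8 : ∑ i : Fin k, e (Fin.castSucc i) = ∑ i : Fin k, e' (Fin.castSucc i) :=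
          Finset.sum_congr rfl (fun i _ => h7 i)
        funext i
        refine Fin.lastCases ?_ (fun i => h7 i) i
        omega
    rw [Fintype.card_piFinset] at h4
    simp only [Finset.card_range, Finset.prod_const, Finset.card_univ, Fintype.card_fin] at h4
    exact_mod_cast h4
  refine (Finset.sum_le_sum h2).trans ?_
  apply hs.sum_le_tsum
  intro j _
  have := hn j
  positivity

/-- dyadic exponents -/
def EX {k : ℕ} (n : Fin k → ℤ) : Fin k → ℕ := fun i => Nat.log 2 (max (n i).natAbs 2)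

lemma EX_le {k : ℕ} (n : Fin k → ℤ) : 2 ^ (∑ i, EX n i) ≤ Hn n := by
  unfold Hn
  rw [← Finset.prod_pow_eq_pow_sum]
  apply Finset.prod_le_prod (fun i _ => Nat.zero_le _)
  intro i _
  unfold EX
  apply Nat.pow_log_le_self
  have := le_max_right (n i).natAbs 2
  omega

lemma EX_card {k : ℕ} (u : Finset (Fin k → ℤ)) (e : Fin k → ℕ) :
    (u.filter (fun n => EX n = e)).card ≤ 8 ^ k * 2 ^ (∑ i, e i) := by
  have h1 : (u.filter (fun n => EX n = e)).card ≤
      (Fintype.piFinset (fun i : Fin k => Finset.Icc (-(2 ^ (e i + 1) : ℤ)) (2 ^ (e i + 1)))).card := by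
    apply Finset.card_le_card
    intro n hn
    have hn' := (Finset.mem_filter.mp hn).2
    rw [Fintype.mem_piFinset]
    intro i
    rw [Finset.mem_Icc]
    have h2 : max (n i).natAbs 2 < 2 ^ (e i + 1) := by
      rw [← hn']
      exact Nat.lt_pow_succ_log_self (by norm_num) _
    have h3 : (n i).natAbs < 2 ^ (e i + 1) := lt_of_le_of_lt (le_max_left _ _) h2
    have h4 : ((n i).natAbs : ℤ) < 2 ^ (e i + 1) := by exact_mod_cast h3
    omega
  refine h1.trans ?_
  rw [Fintype.card_piFinset]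
  have h2 : ∀ i : Fin k, (Finset.Icc (-(2 ^ (e i + 1) : ℤ)) (2 ^ (e i + 1))).card ≤ 8 * 2 ^ e i := by
    intro i
    rw [Int.card_Icc]
    have h3 : ((2 : ℤ) ^ (e i + 1) + 1 - -(2 ^ (e i + 1))).toNat = 2 * 2 ^ (e i + 1) + 1 := by
      have : (2 : ℤ) ^ (e i + 1) + 1 - -(2 ^ (e i + 1)) = ((2 * 2 ^ (e i + 1) + 1 : ℕ) : ℤ) := by
        push_cast
        ring
      rw [this, Int.toNat_natCast]
    rw [h3, pow_succ]
    have : 1 ≤ 2 ^ e i := Nat.one_le_two_pow
    omega
  refine (Finset.prod_le_prod (fun i _ => Nat.zero_le _) (fun i _ => h2 i)).trans ?_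
  rw [Finset.prod_mul_distrib, Finset.prod_const, Finset.card_univ, Fintype.card_fin,
    Finset.prod_pow_eq_pow_sum]

/-- the convergence sum over integer vectors -/
theorem summable_psi_Hn (m : ℕ) (ψ : ℕ → ℝ) (hψ : Antitone ψ) (h0 : ∀ n, 0 ≤ ψ n)
    (h : Summable (fun n : ℕ => ψ n * Real.log n ^ (m + 1))) :
    Summable (fun n : Fin (m + 2) → ℤ => ψ (Hn n)) := by
  have h1 := condense_rev ψ hψ h0 (m + 1) h
  have h2 := summable_exponents (m + 1) (fun j => 8 ^ (m + 2) * ((2 : ℝ) ^ j * ψ (2 ^ j)))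
    (fun j => by have := h0 (2 ^ j); positivity) (by
      refine (h1.mul_left (8 ^ (m + 2) : ℝ)).congr ?_
      intro j
      ring)
  apply summable_of_sum_le (c := ∑' e : Fin (m + 2) → ℕ,
    8 ^ (m + 2) * ((2 : ℝ) ^ (∑ i, e i) * ψ (2 ^ (∑ i, e i)))) (fun n => h0 _)
  intro u
  set J : Finset (Fin (m + 2) → ℕ) := u.image EX with hJ
  have h3 : ∑ n ∈ u, ψ (Hn n) = ∑ e ∈ J, ∑ n ∈ u.filter (fun n => EX n = e), ψ (Hn n) :=
    (Finset.sum_fiberwise_of_maps_to (fun e he => Finset.mem_image_of_mem _ he) _).symm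
  rw [h3]
  have h4 : ∀ e ∈ J, ∑ n ∈ u.filter (fun n => EX n = e), ψ (Hn n) ≤
      8 ^ (m + 2) * ((2 : ℝ) ^ (∑ i, e i) * ψ (2 ^ (∑ i, e i))) := by
    intro e _
    have h5 : ∀ n ∈ u.filter (fun n => EX n = e), ψ (Hn n) ≤ ψ (2 ^ (∑ i, e i)) := by
      intro n hn
      apply hψ
      rw [← (Finset.mem_filter.mp hn).2]
      exact EX_le n
    refine (Finset.sum_le_sum h5).trans ?_
    rw [Finset.sum_const, nsmul_eq_mul]
    have h6 := EX_card u e
    have h7 : ((u.filter (fun n => EX n = e)).card : ℝ) ≤ 8 ^ (m + 2) * 2 ^ (∑ i, e i) := by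
      exact_mod_cast h6
    have h8 := h0 (2 ^ (∑ i, e i))
    calc _ ≤ ((8 : ℝ) ^ (m + 2) * 2 ^ (∑ i, e i)) * ψ (2 ^ (∑ i, e i)) := by gcongr
      _ = _ := by ring
  refine (Finset.sum_le_sum h4).trans ?_
  apply h2.sum_le_tsum
  intro e _
  have := h0 (2 ^ (∑ i, e i))
  positivity

end

end Pool.Agent.Lib.MP_04276e_nt.Ins
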