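import Mathlib
import Pool.Agent.Lib.MP_04276e_nt.Dio

set_option autoImplicit false

namespace Pool.Agent.Lib.MP_04276e_nt.Ins

open MeasureTheory Finset

noncomputable section

variable {ι : Type*} [Fintype ι]

/-- a dual Diophantine condition with exponent w and constant c -/
def DioW (α : ι → ℝ) (w : ℕ) (c : ℝ) : Prop :=
  ∀ v : ι → ℤ, v ≠ 0 → c ≤ nn (∑ i, (v i : ℝ) * α i) * (∏ i, max |(v i : ℝ)| 2) ^ w

/-- lower bound for the denominators -/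
lemma h_lower [Nonempty ι] (α : ι → ℝ) (c : ℝ) (hc : 0 < c) (w : ℕ) (hD : DioW α w c) (E B s : ℕ) (hs : 1 ≤ s)
    (hB : w * Fintype.card ι * (E + 3) + 1 ≤ B) (hcs : 1 < c * 2 ^ s)
    (a : ι → ℕ) (ha1 : ∀ i, 1 ≤ a i) (ha2 : ∀ i, a i ≤ 2 ^ (2 * s)) (h : ℕ) (hh : 0 < h) (p : ℤ)
    (hx : |(∑ i, (a i : ℝ) * α i) - p / h| ≤ 1 / (((2 ^ (B * s) : ℕ) + 1) * h)) :
    2 ^ (E * s) ≤ h := by
  by_contra hcon
  push Not at hcon
  have hh' : (0 : ℝ) < h := by exact_mod_cast hh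
  obtain ⟨i0⟩ := ‹Nonempty ι›
  have hv : (fun i => ((h * a i : ℕ) : ℤ)) ≠ (0 : ι → ℤ) := by
    intro h0
    have := congrFun h0 i0
    simp only [Pi.zero_apply] at this
    have h1 := ha1 i0
    have h2 : h * a i0 = 0 := by exact_mod_cast this
    rcases Nat.mul_eq_zero.mp h2 with h3 | h3 <;> omega
  have h1 := hD _ hv
  have e1 : ∑ i, (((h * a i : ℕ) : ℤ) : ℝ) * α i = h * ∑ i, (a i : ℝ) * α i := by
    rw [Finset.mul_sum]
    apply Finset.sum_congr rfl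
    intro i _
    push_cast
    ring
  rw [e1] at h1
  have h2 : nn (h * ∑ i, (a i : ℝ) * α i) ≤ 1 / ((2 ^ (B * s) : ℕ) + 1) := by
    refine (nn_le_abs _ p).trans ?_
    have : (h : ℝ) * (∑ i, (a i : ℝ) * α i) - p = h * ((∑ i, (a i : ℝ) * α i) - p / h) := by
      field_simp
    rw [this, abs_mul, abs_of_pos hh']
    calc (h : ℝ) * |(∑ i, (a i : ℝ) * α i) - p / h| ≤ h * (1 / (((2 ^ (B * s) : ℕ) + 1) * h)) := by
          gcongr
      _ = _ := by field_simp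
  have h3 : ∏ i, max |((((h * a i : ℕ) : ℤ)) : ℝ)| 2 ≤
      ((2 : ℝ) ^ ((E + 2) * s + 1)) ^ Fintype.card ι := by
    apply HH_le
    · calc (2 : ℝ) = 2 ^ 1 := by norm_num
        _ ≤ _ := pow_le_pow_right₀ (by norm_num) (by omega)
    · intro i
      have : |((((h * a i : ℕ) : ℤ)) : ℝ)| = ((h * a i : ℕ) : ℝ) := by
        rw [Int.cast_natCast]
        exact abs_of_nonneg (Nat.cast_nonneg _)
      rw [this]
      have h4 : h * a i ≤ 2 ^ ((E + 2) * s + 1) := by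
        calc h * a i ≤ 2 ^ (E * s) * 2 ^ (2 * s) := Nat.mul_le_mul hcon.le (ha2 i)
          _ = 2 ^ ((E + 2) * s) := by rw [← pow_add]; ring_nf
          _ ≤ _ := Nat.pow_le_pow_right (by norm_num) (by omega)
      exact_mod_cast h4
  have h0 := HH_nonneg (fun i => ((h * a i : ℕ) : ℤ))
  have h5 : c ≤ 1 / ((2 ^ (B * s) : ℕ) + 1) * (((2 : ℝ) ^ ((E + 2) * s + 1)) ^ Fintype.card ι) ^ w := by
    refine h1.trans ?_
    gcongr
  have h6 : c * 2 ^ (B * s) ≤ (2 : ℝ) ^ (w * Fintype.card ι * ((E + 2) * s + 1)) := by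
    have e2 : (((2 : ℝ) ^ ((E + 2) * s + 1)) ^ Fintype.card ι) ^ w
        = (2 : ℝ) ^ (w * Fintype.card ι * ((E + 2) * s + 1)) := by
      rw [← pow_mul, ← pow_mul]; ring_nf
    rw [e2, one_div, inv_mul_eq_div, le_div_iff₀ (by positivity)] at h5
    push_cast at h5
    nlinarith
  apply two_pow_lt c s _ _ hcs _ h6
  have h7 : (w * Fintype.card ι * (E + 3) + 1) * s ≤ B * s := Nat.mul_le_mul_right _ hB
  have h8 : w * Fintype.card ι * 1 ≤ w * Fintype.card ι * s := Nat.mul_le_mul_left _ hs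
  nlinarith

/-- large gcd forces a contradiction -/
lemma caseA (α : ι → ℝ) (c : ℝ) (w : ℕ) (hD : DioW α w c) (B L K s : ℕ) (hs : 1 ≤ s)
    (hK : 5 + 2 * B + w * Fintype.card ι * (B + L + 2) + w * Fintype.card ι ≤ K)
    (hcs : 1 < c * 2 ^ s)
    (a b : ι → ℕ) (ha2 : ∀ i, a i ≤ 2 ^ (2 * s)) (hb2 : ∀ i, b i ≤ 2 ^ s)
    (Q Q' q r : ℕ) (hQ : 0 < Q) (hQ' : Q' = 2 ^ (K * s)) (hQQ : Q ≤ Q' * 2 ^ (L * s))
    (hq : q ∈ Finset.Ico Q (2 * Q)) (hr : r ∈ Finset.Ico Q' (2 * Q'))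
    (ψ₁ : ℝ) (hψ0 : 0 ≤ ψ₁) (hψ₁ : ψ₁ ≤ 1 / Q)
    (hne : ∃ l, (r / q.gcd r) * a l ≠ (q / q.gcd r) * b l)
    (hnn : nn (((r / q.gcd r : ℕ) : ℝ) * (∑ i, (a i : ℝ) * α i) -
      ((q / q.gcd r : ℕ) : ℝ) * (∑ i, (b i : ℝ) * α i)) ≤ 3 * (((r / q.gcd r : ℕ) : ℝ) * ψ₁)) :
    2 ^ (B * s) * q.gcd r ≤ Q' := by
  by_contra hcon
  push Not at hcon
  set g := q.gcd r with hg
  set N := 2 ^ (B * s) with hN
  have hqI := Finset.mem_Ico.mp hq
  have hrI := Finset.mem_Ico.mp hr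
  have hq0 : 0 < q := by omega
  have hg0 : 0 < g := Nat.gcd_pos_of_pos_left r hq0
  have hgq : g ∣ q := Nat.gcd_dvd_left q r
  have hgr : g ∣ r := Nat.gcd_dvd_right q r
  have hgle : g ≤ q := Nat.le_of_dvd hq0 hgq
  have hr' : r / g ≤ 2 * N := by
    apply Nat.le_of_lt
    rw [Nat.div_lt_iff_lt_mul hg0]
    calc r < 2 * Q' := hrI.2
      _ < 2 * (N * g) := by omega
      _ = 2 * N * g := by ring
  have hq' : q / g ≤ 2 * N * 2 ^ (L * s) := by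
    apply Nat.le_of_lt
    rw [Nat.div_lt_iff_lt_mul hg0]
    calc q < 2 * Q := hqI.2
      _ ≤ 2 * (Q' * 2 ^ (L * s)) := by omega
      _ < 2 * ((N * g) * 2 ^ (L * s)) := by
          apply Nat.mul_lt_mul_of_pos_left _ (by norm_num)
          exact Nat.mul_lt_mul_of_pos_right hcon (by positivity)
      _ = 2 * N * 2 ^ (L * s) * g := by ring
  -- the difference vector
  set v : ι → ℤ := fun l => ((r / g : ℕ) : ℤ) * (a l : ℤ) - ((q / g : ℕ) : ℤ) * (b l : ℤ) with hv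
  have hv0 : v ≠ 0 := by
    obtain ⟨l, hl⟩ := hne
    intro h0
    apply hl
    have := congrFun h0 l
    simp only [hv, Pi.zero_apply] at this
    have h2 : ((r / g : ℕ) : ℤ) * (a l : ℤ) = ((q / g : ℕ) : ℤ) * (b l : ℤ) := by linarith
    exact_mod_cast h2
  have h1 := hD v hv0
  have e1 : ∑ i, (v i : ℝ) * α i = ((r / g : ℕ) : ℝ) * (∑ i, (a i : ℝ) * α i) -
      ((q / g : ℕ) : ℝ) * (∑ i, (b i : ℝ) * α i) := by
    rw [Finset.mul_sum, Finset.mul_sum, ← Finset.sum_sub_distrib]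
    apply Finset.sum_congr rfl
    intro i _
    simp only [hv, Int.cast_sub, Int.cast_mul, Int.cast_natCast]
    ring
  rw [e1] at h1
  have h3 : ∏ i, max |(v i : ℝ)| 2 ≤ ((2 : ℝ) ^ ((B + L + 2) * s + 1)) ^ Fintype.card ι := by
    apply HH_le
    · calc (2 : ℝ) = 2 ^ 1 := by norm_num
        _ ≤ _ := pow_le_pow_right₀ (by norm_num) (by omega)
    · intro i
      have hA : (r / g) * a i ≤ 2 ^ ((B + L + 2) * s + 1) := by
        calc (r / g) * a i ≤ (2 * N) * 2 ^ (2 * s) := Nat.mul_le_mul hr' (ha2 i)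
          _ = 2 ^ ((B + 2) * s + 1) := by rw [hN]; ring
          _ ≤ _ := Nat.pow_le_pow_right (by norm_num) (by nlinarith)
      have hB' : (q / g) * b i ≤ 2 ^ ((B + L + 2) * s + 1) := by
        calc (q / g) * b i ≤ (2 * N * 2 ^ (L * s)) * 2 ^ s := Nat.mul_le_mul hq' (hb2 i)
          _ = 2 ^ ((B + L + 1) * s + 1) := by rw [hN]; ring
          _ ≤ _ := Nat.pow_le_pow_right (by norm_num) (by nlinarith)
      have hA' : (((r / g) * a i : ℕ) : ℝ) ≤ (2 : ℝ) ^ ((B + L + 2) * s + 1) := by exact_mod_cast hA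
      have hB'' : (((q / g) * b i : ℕ) : ℝ) ≤ (2 : ℝ) ^ ((B + L + 2) * s + 1) := by exact_mod_cast hB'
      have hA0 : (0 : ℝ) ≤ (((r / g) * a i : ℕ) : ℝ) := Nat.cast_nonneg _
      have hB0 : (0 : ℝ) ≤ (((q / g) * b i : ℕ) : ℝ) := Nat.cast_nonneg _
      have e2 : (v i : ℝ) = (((r / g) * a i : ℕ) : ℝ) - (((q / g) * b i : ℕ) : ℝ) := by
        simp only [hv, Int.cast_sub, Int.cast_mul, Int.cast_natCast, Nat.cast_mul]
      rw [e2, abs_le]
      constructor <;> linarith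
  have h0 := HH_nonneg v
  have hQr : (0 : ℝ) < Q := by exact_mod_cast hQ
  have hr'r : ((r / g : ℕ) : ℝ) ≤ 2 * 2 ^ (B * s) := by exact_mod_cast hr'
  have h5 : c ≤ 3 * ((2 * 2 ^ (B * s)) * (1 / Q)) *
      (((2 : ℝ) ^ ((B + L + 2) * s + 1)) ^ Fintype.card ι) ^ w := by
    refine h1.trans ?_
    have : nn (((r / g : ℕ) : ℝ) * (∑ i, (a i : ℝ) * α i) -
      ((q / g : ℕ) : ℝ) * (∑ i, (b i : ℝ) * α i)) ≤ 3 * ((2 * 2 ^ (B * s)) * (1 / Q)) := by
      refine hnn.trans ?_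
      gcongr
    gcongr
  have h5' : c * Q ≤ 6 * 2 ^ (B * s) * (((2 : ℝ) ^ ((B + L + 2) * s + 1)) ^ Fintype.card ι) ^ w := by
    calc c * Q ≤ (3 * ((2 * 2 ^ (B * s)) * (1 / Q)) *
      (((2 : ℝ) ^ ((B + L + 2) * s + 1)) ^ Fintype.card ι) ^ w) * Q := by gcongr
      _ = _ := by field_simp; ring
  have hQ'Q : Q' ≤ 2 * N * Q := by
    calc Q' ≤ N * g := hcon.le
      _ ≤ N * (2 * Q) := Nat.mul_le_mul_left _ (by omega)
      _ = _ := by ring
  have hQ'Qr : (2 : ℝ) ^ (K * s) ≤ 2 * 2 ^ (B * s) * Q := by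
    rw [hQ'] at hQ'Q
    exact_mod_cast hQ'Q
  have hc : 0 < c := by
    by_contra hc
    push Not at hc
    have : c * 2 ^ s ≤ 0 := mul_nonpos_of_nonpos_of_nonneg hc (by positivity)
    linarith
  have h6 : c * 2 ^ (K * s) ≤ (2 : ℝ) ^ (4 + 2 * B * s + w * Fintype.card ι * ((B + L + 2) * s + 1)) := by
    have e2 : (((2 : ℝ) ^ ((B + L + 2) * s + 1)) ^ Fintype.card ι) ^ w
        = (2 : ℝ) ^ (w * Fintype.card ι * ((B + L + 2) * s + 1)) := by
      rw [← pow_mul, ← pow_mul]; ring_nf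
    rw [e2] at h5'
    calc c * 2 ^ (K * s) ≤ c * (2 * 2 ^ (B * s) * Q) := by gcongr
      _ = 2 * 2 ^ (B * s) * (c * Q) := by ring
      _ ≤ 2 * 2 ^ (B * s) * (6 * 2 ^ (B * s) * (2 : ℝ) ^ (w * Fintype.card ι * ((B + L + 2) * s + 1))) := by
          gcongr
      _ = 12 * (2 ^ (2 * B * s)) * (2 : ℝ) ^ (w * Fintype.card ι * ((B + L + 2) * s + 1)) := by
          have : (2 : ℝ) ^ (2 * B * s) = 2 ^ (B * s) * 2 ^ (B * s) := by rw [← pow_add]; ring_nf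
          rw [this]; ring
      _ ≤ 2 ^ 4 * (2 ^ (2 * B * s)) * (2 : ℝ) ^ (w * Fintype.card ι * ((B + L + 2) * s + 1)) := by
          gcongr; norm_num
      _ = _ := by rw [← pow_add, ← pow_add]
  apply two_pow_lt c s _ _ hcs _ h6
  have h7 := Nat.mul_le_mul_right s hK
  have h8 : w * Fintype.card ι * 1 ≤ w * Fintype.card ι * s := Nat.mul_le_mul_left _ hs
  nlinarith

end

end Pool.Agent.Lib.MP_04276e_nt.Ins
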