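import Mathlib
import Pool.Agent.Lib.MP_04276e_nt.Moment
import Pool.Agent.Lib.MP_04276e_nt.Ins.Dio

set_option autoImplicit false

namespace Pool.Agent.Lib.MP_04276e_nt.Ins

open MeasureTheory Finset

noncomputable section

variable {ι : Type*} [Fintype ι] [DecidableEq ι]

/-- admissible radii -/
structure Rad (K L s0 : ℕ) (κ : ℝ) (ψ : PP ι → ℝ) : Prop where
  up : ∀ p : PP ι, s0 ≤ p.1 → (∀ i, 1 ≤ p.2 i ∧ p.2 i ≤ 2 ^ p.1) → ψ p ≤ κ / Qf K p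
  low : ∀ p : PP ι, s0 ≤ p.1 → (∀ i, 1 ≤ p.2 i ∧ p.2 i ≤ 2 ^ p.1) →
    κ / (Qf K p * 2 ^ (L * p.1)) ≤ ψ p
  mono : ∀ p p' : PP ι, s0 ≤ p'.1 → p'.1 ≤ p.1 → (∀ i, 1 ≤ p'.2 i) → (∀ l, p'.2 l ≤ p.2 l) →
    ψ p ≤ ψ p'

variable {K L s0 : ℕ} {κ : ℝ} {ψ : PP ι → ℝ}

/-- ordering function: the larger it is the smaller the radius -/
def Rg (K : ℕ) (ψ : PP ι → ℝ) (p : PP ι) : ℝ := (Qf K p : ℝ) / ψ p

lemma Rad.upJ (R : Rad K L s0 κ ψ) {M : ℕ} {p : PP ι} (hp : p ∈ JJ ι s0 M) :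
    ψ p ≤ κ / Qf K p := by
  have h := mem_JJ.mp hp
  exact R.up p h.1.1 h.2

lemma Rad.lowJ (R : Rad K L s0 κ ψ) {M : ℕ} {p : PP ι} (hp : p ∈ JJ ι s0 M) :
    κ / (Qf K p * 2 ^ (L * p.1)) ≤ ψ p := by
  have h := mem_JJ.mp hp
  exact R.low p h.1.1 h.2

lemma Rad.pos (R : Rad K L s0 κ ψ) (hκ : 0 < κ) {M : ℕ} {p : PP ι} (hp : p ∈ JJ ι s0 M) :
    0 < ψ p := by
  have h := R.lowJ hp
  have hQ : (0 : ℝ) < Qf K p := by exact_mod_cast Qf_pos K p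
  have : 0 < κ / (Qf K p * 2 ^ (L * p.1)) := by positivity
  linarith

lemma ord_Q (R : Rad K L s0 κ ψ) (hκ : 0 < κ) {M : ℕ} {p p' : PP ι} (hp : p ∈ JJ ι s0 M)
    (hp' : p' ∈ JJ ι s0 M) (h : Rg K ψ p ≤ Rg K ψ p') :
    Qf K p ≤ Qf K p' * 2 ^ (L * p'.1) := by
  have hψ := R.pos hκ hp
  have hψ' := R.pos hκ hp'
  have hQ : (0 : ℝ) < Qf K p := by exact_mod_cast Qf_pos K p
  have hQ' : (0 : ℝ) < Qf K p' := by exact_mod_cast Qf_pos K p'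
  have h2 : (1 : ℝ) ≤ (2 : ℝ) ^ (L * p'.1) := one_le_pow₀ (by norm_num)
  have hup := R.upJ hp
  have hlow := R.lowJ hp'
  unfold Rg at h
  rw [div_le_div_iff₀ hψ hψ'] at h
  rw [le_div_iff₀ hQ] at hup
  rw [div_le_iff₀ (by positivity)] at hlow
  have h3 : (Qf K p : ℝ) ^ 2 ≤ ((Qf K p' : ℝ) * (2 : ℝ) ^ (L * p'.1)) ^ 2 := by
    have e1 : (Qf K p : ℝ) ^ 2 * κ ≤ (Qf K p : ℝ) ^ 2 * (ψ p' * (Qf K p' * 2 ^ (L * p'.1))) := by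
      gcongr
    have e2 : (Qf K p : ℝ) ^ 2 * (ψ p' * (Qf K p' * 2 ^ (L * p'.1))) =
        (Qf K p * ψ p') * (Qf K p * Qf K p' * 2 ^ (L * p'.1)) := by ring
    have e3 : (Qf K p * ψ p') * (Qf K p * Qf K p' * 2 ^ (L * p'.1)) ≤
        (Qf K p' * ψ p) * (Qf K p * Qf K p' * 2 ^ (L * p'.1)) := by
      apply mul_le_mul_of_nonneg_right _ (by positivity)
      exact h
    have e4 : (Qf K p' * ψ p) * (Qf K p * Qf K p' * 2 ^ (L * p'.1)) =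
        (ψ p * Qf K p) * ((Qf K p' : ℝ) ^ 2 * 2 ^ (L * p'.1)) := by ring
    have e5 : (ψ p * Qf K p) * ((Qf K p' : ℝ) ^ 2 * 2 ^ (L * p'.1)) ≤
        κ * ((Qf K p' : ℝ) ^ 2 * 2 ^ (L * p'.1)) := by
      apply mul_le_mul_of_nonneg_right hup (by positivity)
    have e6 : (Qf K p : ℝ) ^ 2 * κ ≤ ((Qf K p' : ℝ) ^ 2 * 2 ^ (L * p'.1)) * κ := by linarith
    have e7 : (Qf K p : ℝ) ^ 2 ≤ (Qf K p' : ℝ) ^ 2 * 2 ^ (L * p'.1) := le_of_mul_le_mul_right e6 hκ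
    refine e7.trans ?_
    rw [mul_pow]
    apply mul_le_mul_of_nonneg_left _ (by positivity)
    nlinarith
  have h5 := (pow_le_pow_iff_left₀ hQ.le (by positivity) (by norm_num)).mp h3
  exact_mod_cast h5

lemma ord_s (R : Rad K L s0 κ ψ) (hκ : 0 < κ) (hK : L ≤ K) (hK0 : 0 < K)
    {M : ℕ} {p p' : PP ι} (hp : p ∈ JJ ι s0 M)
    (hp' : p' ∈ JJ ι s0 M) (h : Rg K ψ p ≤ Rg K ψ p') : p.1 ≤ 2 * p'.1 := by
  have h1 := ord_Q R hκ hp hp' h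
  unfold Qf at h1
  rw [← pow_add] at h1
  have h2 := (Nat.pow_le_pow_iff_right (by norm_num)).mp h1
  have h3 : K * p.1 ≤ K * (2 * p'.1) := by
    have := Nat.mul_le_mul_right p'.1 hK
    nlinarith
  exact Nat.le_of_mul_le_mul_left h3 hK0

lemma ord_psi (R : Rad K L s0 κ ψ) (hκ : 0 < κ) {M : ℕ} {p p' : PP ι}
    (hp : p ∈ JJ ι s0 M) (hp' : p' ∈ JJ ι s0 M) (h : Rg K ψ p ≤ Rg K ψ p') :
    Qf K p * ψ p' ≤ Qf K p' * ψ p := by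
  have hψ := R.pos hκ hp
  have hψ' := R.pos hκ hp'
  unfold Rg at h
  rwa [div_le_div_iff₀ hψ hψ'] at h

lemma ord_gcd (R : Rad K L s0 κ ψ) (hκ : 0 < κ) {M : ℕ} {p p' : PP ι}
    (hp : p ∈ JJ ι s0 M) (hp' : p' ∈ JJ ι s0 M) (h : Rg K ψ p ≤ Rg K ψ p')
    {q r : ℕ} (hq : q ∈ Finset.Ico (Qf K p) (2 * Qf K p))
    (hr : r ∈ Finset.Ico (Qf K p') (2 * Qf K p')) :
    ((q / q.gcd r : ℕ) : ℝ) * ψ p' ≤ 2 * (((r / q.gcd r : ℕ) : ℝ) * ψ p) := by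
  have h1 := ord_psi R hκ hp hp' h
  have hqI := Finset.mem_Ico.mp hq
  have hrI := Finset.mem_Ico.mp hr
  have hQ : 0 < Qf K p := Qf_pos K p
  have hQ' : 0 < Qf K p' := Qf_pos K p'
  have hg0 : 0 < q.gcd r := Nat.gcd_pos_of_pos_left r (by omega)
  have hg' : (0 : ℝ) < (q.gcd r : ℝ) := by exact_mod_cast hg0
  rw [Nat.cast_div (Nat.gcd_dvd_left q r) hg'.ne', Nat.cast_div (Nat.gcd_dvd_right q r) hg'.ne']
  have hψ := (R.pos hκ hp).le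
  have hψ' := (R.pos hκ hp').le
  have e1 : (q : ℝ) ≤ 2 * Qf K p := by
    have := hqI.2.le
    exact_mod_cast this
  have e2 : (Qf K p' : ℝ) ≤ r := by exact_mod_cast hrI.1
  have key : (q : ℝ) * ψ p' ≤ 2 * ((r : ℝ) * ψ p) := by
    calc (q : ℝ) * ψ p' ≤ (2 * Qf K p) * ψ p' := by gcongr
      _ = 2 * (Qf K p * ψ p') := by ring
      _ ≤ 2 * (Qf K p' * ψ p) := by gcongr
      _ ≤ 2 * ((r : ℝ) * ψ p) := by gcongr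
  rw [div_mul_eq_mul_div, div_mul_eq_mul_div, mul_div_assoc', div_le_div_iff_of_pos_right hg']
  exact key

end

end Pool.Agent.Lib.MP_04276e_nt.Ins
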