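import Mathlib
import Pool.Agent.Lib.MP_04276e_nt.Ins.Family

set_option autoImplicit false

namespace Pool.Agent.Lib.MP_04276e_nt.Ins

open MeasureTheory Finset

noncomputable section

variable {ι : Type*} [Fintype ι] [DecidableEq ι]

variable {K L s0 : ℕ} {κ : ℝ} {ψ : PP ι → ℝ}

def badG (α : ι → ℝ) (ψ : PP ι → ℝ) (p p' : PP ι) (q r : ℕ) : Prop :=
  (∃ l, (r / q.gcd r) * p.2 l ≠ (q / q.gcd r) * p'.2 l) ∧
    nn (((r / q.gcd r : ℕ) : ℝ) * xf α p - ((q / q.gcd r : ℕ) : ℝ) * xf α p')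
      ≤ 3 * (((r / q.gcd r : ℕ) : ℝ) * ψ p)

open scoped Classical in
lemma T1_pair [Nonempty ι] (α : ι → ℝ) (c : ℝ) (hc : 0 < c) (w : ℕ) (hD : DioW α w c) (R : Rad K L s0 κ ψ) (hκ : 0 < κ)
    (hκ1 : κ ≤ 1) (E B M : ℕ) (hs0 : 1 ≤ s0) (hcs : 1 < c * 2 ^ s0)
    (hB : w * Fintype.card ι * (E + 3) + 1 ≤ B)
    (hK : 5 + 2 * B + w * Fintype.card ι * (B + L + 2) + w * Fintype.card ι ≤ K)
    (hK' : L ≤ K)
    {p p' : PP ι} (hp : p ∈ JJ ι s0 M) (hp' : p' ∈ JJ ι s0 M) (h : Rg K ψ p ≤ Rg K ψ p') :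
    ∑ q ∈ Finset.Ico (Qf K p) (2 * Qf K p), ∑ r ∈ Finset.Ico (Qf K p') (2 * Qf K p'),
        (if badG α ψ p p' q r then ψ p' / ((r / q.gcd r : ℕ) : ℝ) else 0) ≤
      216 * (Qf K p * ψ p) * (Qf K p' * ψ p') +
        27 * κ * (2 * K + 2) * (2 ^ ((L + 1) * p'.1) / 2 ^ (E * p'.1)) := by
  have hK0 : 0 < K := by omega
  have hmem := mem_JJ.mp hp
  have hmem' := mem_JJ.mp hp'
  have hs' : 1 ≤ p'.1 := by omega
  have hcs' : 1 < c * 2 ^ p'.1 := by
    refine hcs.trans_le ?_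
    apply mul_le_mul_of_nonneg_left _ hc.le
    exact pow_le_pow_right₀ (by norm_num) hmem'.1.1
  have hss := ord_s R hκ hK' hK0 hp hp' h
  have ha1 : ∀ i, 1 ≤ p.2 i := fun i => (hmem.2 i).1
  have ha2 : ∀ i, p.2 i ≤ 2 ^ (2 * p'.1) := fun i =>
    (hmem.2 i).2.trans (Nat.pow_le_pow_right (by norm_num) hss)
  have hb2 : ∀ i, p'.2 i ≤ 2 ^ p'.1 := fun i => (hmem'.2 i).2
  set N := 2 ^ (B * p'.1) with hN
  have hN0 : 0 < N := by positivity
  obtain ⟨ρ, hρ1, hρ2⟩ := Real.exists_rat_abs_sub_le_and_den_le (xf α p) hN0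
  have hden : 0 < ρ.den := ρ.den_pos
  have hcop : IsCoprime ρ.num (ρ.den : ℤ) := by
    rw [Int.isCoprime_iff_gcd_eq_one]
    exact_mod_cast ρ.reduced
  have hx : |xf α p - ρ.num / ρ.den| ≤ 1 / (((N : ℕ) + 1) * ρ.den) := by
    have : (ρ : ℝ) = ρ.num / ρ.den := by exact_mod_cast (Rat.num_div_den ρ).symm
    rw [← this]
    exact hρ1
  have hE : 2 ^ (E * p'.1) ≤ ρ.den :=
    h_lower α c hc w hD E B p'.1 hs' hB hcs' p.2 ha1 ha2 ρ.den hden ρ.num hx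
  have hψ := (R.pos hκ hp).le
  have hψ' := (R.pos hκ hp').le
  have hQ := Qf_pos K p
  have hQ' := Qf_pos K p'
  have hQr : (0 : ℝ) < Qf K p := by exact_mod_cast hQ
  have hQr' : (0 : ℝ) < Qf K p' := by exact_mod_cast hQ'
  have hQQ := ord_Q R hκ hp hp' h
  have hmain := sum_qr_bound (Qf K p) (Qf K p') ρ.den N hQ hQ' hden hρ2 ρ.num hcop (xf α p)
    (xf α p') (ψ p) (ψ p') hψ hψ' hx (badG α ψ p p') (by
      intro q hq r hr hbad
      refine ⟨?_, hbad.2⟩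
      apply caseA α c w hD B L K p'.1 hs' hK hcs' p.2 p'.2 ha2 hb2 (Qf K p)
        (Qf K p') q r hQ rfl hQQ hq hr (ψ p) hψ _ hbad.1 hbad.2
      refine (R.upJ hp).trans ?_
      gcongr)
  refine hmain.trans ?_
  have h1 : ψ p' ≤ κ / Qf K p' := R.upJ hp'
  have h2 : (Qf K p : ℝ) ≤ Qf K p' * 2 ^ (L * p'.1) := by exact_mod_cast hQQ
  have h3 : 1 + Real.log (2 * (Qf K p : ℝ)) ≤ (2 * K + 2) * 2 ^ p'.1 :=
    one_add_log_le K p.1 p'.1 hs' hss
  have h4 : ((2 : ℝ) ^ (E * p'.1)) ≤ ρ.den := by exact_mod_cast hE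
  have h5 : (0 : ℝ) < (2 : ℝ) ^ (E * p'.1) := by positivity
  have h6 : 0 ≤ 1 + Real.log (2 * (Qf K p : ℝ)) := by
    have : (1 : ℝ) ≤ Qf K p := by exact_mod_cast hQ
    have := Real.log_nonneg (by linarith : (1 : ℝ) ≤ 2 * (Qf K p : ℝ))
    linarith
  have h7 : 27 * (Qf K p : ℝ) * ψ p' / ρ.den * (1 + Real.log (2 * (Qf K p : ℝ))) ≤
      27 * (Qf K p' * 2 ^ (L * p'.1)) * (κ / Qf K p') / 2 ^ (E * p'.1) *
        ((2 * K + 2) * 2 ^ p'.1) := by
    gcongr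
  have h8 : 27 * (Qf K p' * 2 ^ (L * p'.1)) * (κ / Qf K p') / 2 ^ (E * p'.1) *
        ((2 * K + 2) * 2 ^ p'.1) =
      27 * κ * (2 * K + 2) * ((2 : ℝ) ^ ((L + 1) * p'.1) / 2 ^ (E * p'.1)) := by
    have : (2 : ℝ) ^ ((L + 1) * p'.1) =
        2 ^ (L * p'.1) * 2 ^ p'.1 := by rw [← pow_add]; ring_nf
    rw [this]
    field_simp
  linarith

open scoped Classical in
lemma card_ord (R : Rad K L s0 κ ψ) (hκ : 0 < κ) (M : ℕ)
    (hK' : L ≤ K) (hK0 : 0 < K) {p' : PP ι} (hp' : p' ∈ JJ ι s0 M) :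
    (((JJ ι s0 M).filter (fun p => Rg K ψ p ≤ Rg K ψ p')).card : ℝ) ≤
      3 * 2 ^ ((2 * Fintype.card ι + 1) * p'.1) := by
  have hsub : (JJ ι s0 M).filter (fun p => Rg K ψ p ≤ Rg K ψ p') ⊆
      (Finset.range (2 * p'.1 + 1)).sigma (fun s => box ι s) := by
    intro p hp
    have hp1 := Finset.mem_filter.mp hp
    rw [Finset.mem_sigma, Finset.mem_range]
    refine ⟨?_, (Finset.mem_sigma.mp hp1.1).2⟩
    have := ord_s R hκ hK' hK0 hp1.1 hp' hp1.2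
    omega
  have h1 := Finset.card_le_card hsub
  rw [Finset.card_sigma] at h1
  have h2 : (((Finset.range (2 * p'.1 + 1)).sum (fun s => (box ι s).card) : ℕ) : ℝ) ≤
      (2 * p'.1 + 1) * 2 ^ (2 * Fintype.card ι * p'.1) := by
    push_cast
    calc ∑ s ∈ Finset.range (2 * p'.1 + 1), ((box ι s).card : ℝ)
        ≤ ∑ _s ∈ Finset.range (2 * p'.1 + 1), (2 : ℝ) ^ (2 * Fintype.card ι * p'.1) := by
          apply Finset.sum_le_sum
          intro s hs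
          rw [card_box]
          apply pow_le_pow_right₀ (by norm_num)
          have : s ≤ 2 * p'.1 := by have := Finset.mem_range.mp hs; omega
          calc Fintype.card ι * s ≤ Fintype.card ι * (2 * p'.1) := Nat.mul_le_mul_left _ this
            _ = _ := by ring
      _ = _ := by
          rw [Finset.sum_const, Finset.card_range, nsmul_eq_mul]
          push_cast
          ring
  have h3 : (p'.1 : ℝ) ≤ 2 ^ p'.1 := by exact_mod_cast (Nat.lt_two_pow_self (n := p'.1)).le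
  have h4 : (1 : ℝ) ≤ 2 ^ p'.1 := one_le_pow₀ (by norm_num)
  calc (((JJ ι s0 M).filter (fun p => Rg K ψ p ≤ Rg K ψ p')).card : ℝ)
      ≤ (((Finset.range (2 * p'.1 + 1)).sum (fun s => (box ι s).card) : ℕ) : ℝ) := by
        exact_mod_cast h1
    _ ≤ (2 * p'.1 + 1) * 2 ^ (2 * Fintype.card ι * p'.1) := h2
    _ ≤ (3 * 2 ^ p'.1) * 2 ^ (2 * Fintype.card ι * p'.1) := by
        gcongr
        linarith
    _ = _ := by
        have : (2 : ℝ) ^ ((2 * Fintype.card ι + 1) * p'.1) =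
          2 ^ p'.1 * 2 ^ (2 * Fintype.card ι * p'.1) := by rw [← pow_add]; ring_nf
        rw [this]; ring

open scoped Classical in
lemma T1_total [Nonempty ι] (α : ι → ℝ) (c : ℝ) (hc : 0 < c) (w : ℕ) (hD : DioW α w c) (R : Rad K L s0 κ ψ) (hκ : 0 < κ)
    (hκ1 : κ ≤ 1) (E B M : ℕ) (hs0 : 1 ≤ s0) (hcs : 1 < c * 2 ^ s0)
    (hE : 3 * Fintype.card ι + L + 3 ≤ E)
    (hB : w * Fintype.card ι * (E + 3) + 1 ≤ B)
    (hK : 5 + 2 * B + w * Fintype.card ι * (B + L + 2) + w * Fintype.card ι ≤ K)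
    (hK' : L ≤ K) :
    ∑ p ∈ JJ ι s0 M, ∑ p' ∈ JJ ι s0 M, (if Rg K ψ p ≤ Rg K ψ p' then
      ∑ q ∈ Finset.Ico (Qf K p) (2 * Qf K p), ∑ r ∈ Finset.Ico (Qf K p') (2 * Qf K p'),
        (if badG α ψ p p' q r then ψ p' / ((r / q.gcd r : ℕ) : ℝ) else 0) else 0) ≤
      216 * (∑ p ∈ JJ ι s0 M, Qf K p * ψ p) ^ 2 + 81 * (2 * K + 2) * κ := by
  have hK0 : 0 < K := by omega
  have h1 : ∀ p ∈ JJ ι s0 M, ∀ p' ∈ JJ ι s0 M, (if Rg K ψ p ≤ Rg K ψ p' then
      ∑ q ∈ Finset.Ico (Qf K p) (2 * Qf K p), ∑ r ∈ Finset.Ico (Qf K p') (2 * Qf K p'),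
        (if badG α ψ p p' q r then ψ p' / ((r / q.gcd r : ℕ) : ℝ) else 0) else 0) ≤
      216 * (Qf K p * ψ p) * (Qf K p' * ψ p') +
      (if Rg K ψ p ≤ Rg K ψ p' then
        27 * κ * (2 * K + 2) * (2 ^ ((L + 1) * p'.1) / 2 ^ (E * p'.1)) else 0) := by
    intro p hp p' hp'
    split_ifs with hif
    · exact T1_pair α c hc w hD R hκ hκ1 E B M hs0 hcs hB hK hK' hp hp' hif
    · have := (R.pos hκ hp).le
      have := (R.pos hκ hp').le
      positivity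
  refine (Finset.sum_le_sum fun p hp => Finset.sum_le_sum fun p' hp' => h1 p hp p' hp').trans ?_
  simp_rw [Finset.sum_add_distrib]
  have h2 : ∑ p ∈ JJ ι s0 M, ∑ p' ∈ JJ ι s0 M,
      216 * (Qf K p * ψ p) * (Qf K p' * ψ p') =
      216 * (∑ p ∈ JJ ι s0 M, Qf K p * ψ p) ^ 2 := by
    rw [sq, Finset.sum_mul_sum, Finset.mul_sum]
    apply Finset.sum_congr rfl
    intro p _
    rw [Finset.mul_sum]
    apply Finset.sum_congr rfl
    intro p' _
    ring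
  rw [h2]
  have h3 : ∑ p ∈ JJ ι s0 M, ∑ p' ∈ JJ ι s0 M, (if Rg K ψ p ≤ Rg K ψ p' then
        27 * κ * (2 * K + 2) * ((2 : ℝ) ^ ((L + 1) * p'.1) / 2 ^ (E * p'.1)) else 0)
      ≤ 81 * (2 * K + 2) * κ := by
    rw [Finset.sum_comm]
    calc _ ≤ ∑ p' ∈ JJ ι s0 M, (3 * 2 ^ ((2 * Fintype.card ι + 1) * p'.1)) *
          (27 * κ * (2 * K + 2) * ((2 : ℝ) ^ ((L + 1) * p'.1) / 2 ^ (E * p'.1))) := by
          apply Finset.sum_le_sum
          intro p' hp'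
          rw [← Finset.sum_filter, Finset.sum_const, nsmul_eq_mul]
          apply mul_le_mul_of_nonneg_right _ (by positivity)
          exact card_ord R hκ M hK' hK0 hp'
      _ = ∑ s ∈ Finset.Icc s0 M, ∑ _b ∈ box ι s, (3 * 2 ^ ((2 * Fintype.card ι + 1) * s)) *
          (27 * κ * (2 * K + 2) * ((2 : ℝ) ^ ((L + 1) * s) / 2 ^ (E * s))) := by
          rw [JJ, Finset.sum_sigma]
      _ ≤ ∑ s ∈ Finset.Icc s0 M, 81 * (2 * K + 2) * κ * (1 / 2 ^ s) := by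
          apply Finset.sum_le_sum
          intro s _
          rw [Finset.sum_const, nsmul_eq_mul, card_box]
          have e1 : (2 : ℝ) ^ (Fintype.card ι * s) * (3 * 2 ^ ((2 * Fintype.card ι + 1) * s) *
            (27 * κ * (2 * K + 2) * ((2 : ℝ) ^ ((L + 1) * s) / 2 ^ (E * s)))) =
            81 * (2 * K + 2) * κ * ((2 : ℝ) ^ ((3 * Fintype.card ι + L + 2) * s)
              / 2 ^ (E * s)) := by
            have : (2 : ℝ) ^ ((3 * Fintype.card ι + L + 2) * s) =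
              2 ^ (Fintype.card ι * s) * 2 ^ ((2 * Fintype.card ι + 1) * s) *
                2 ^ ((L + 1) * s) := by
              rw [← pow_add, ← pow_add]; ring_nf
            rw [this]
            ring
          rw [e1]
          apply mul_le_mul_of_nonneg_left _ (by positivity)
          rw [div_le_div_iff₀ (by positivity) (by positivity), one_mul, ← pow_add]
          apply pow_le_pow_right₀ (by norm_num)
          have := Nat.mul_le_mul_right s hE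
          nlinarith
      _ = 81 * (2 * K + 2) * κ * ∑ s ∈ Finset.Icc s0 M, (1 : ℝ) / 2 ^ s := by
          rw [Finset.mul_sum]
      _ ≤ 81 * (2 * K + 2) * κ * 1 := by
          apply mul_le_mul_of_nonneg_left (sum_half_pow s0 M hs0) (by positivity)
      _ = _ := by ring
  linarith

end

end Pool.Agent.Lib.MP_04276e_nt.Ins
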