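import Mathlib
import Pool.Agent.Lib.MP_04276e_nt.Ins.T1

set_option autoImplicit false

namespace Pool.Agent.Lib.MP_04276e_nt.Ins

open MeasureTheory Finset

noncomputable section

variable {ι : Type*} [Fintype ι] [DecidableEq ι]

variable {K L s0 : ℕ} {κ : ℝ} {ψ : PP ι → ℝ}

lemma deg_bound (R : Rad K L s0 κ ψ) (hκ : 0 < κ) (M : ℕ) {p p' : PP ι} (hp : p ∈ JJ ι s0 M)
    (hp' : p' ∈ JJ ι s0 M) {q r : ℕ} (hq : q ∈ Finset.Ico (Qf K p) (2 * Qf K p))
    (hr : r ∈ Finset.Ico (Qf K p') (2 * Qf K p')) (h : Rg K ψ p ≤ Rg K ψ p') (hdeg : degP p p' q r) :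
    q / q.gcd r ≤ 2 * (r / q.gcd r) := by
  by_contra hcon
  push Not at hcon
  have hqI := Finset.mem_Ico.mp hq
  have hrI := Finset.mem_Ico.mp hr
  have hQ : 0 < Qf K p := Qf_pos K p
  have hQ' : 0 < Qf K p' := Qf_pos K p'
  have hg0 : 0 < q.gcd r := Nat.gcd_pos_of_pos_left r (by omega)
  have hgr : q.gcd r ∣ r := Nat.gcd_dvd_right q r
  have hgq : q.gcd r ∣ q := Nat.gcd_dvd_left q r
  have hr0 : 0 < r / q.gcd r := Nat.div_pos (Nat.le_of_dvd (by omega) hgr) hg0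
  have h1 : 2 * r < q := by
    calc 2 * r = 2 * (r / q.gcd r) * q.gcd r := by
          rw [mul_assoc, Nat.div_mul_cancel hgr]
      _ < (q / q.gcd r) * q.gcd r := Nat.mul_lt_mul_of_pos_right hcon hg0
      _ = q := Nat.div_mul_cancel hgq
  have h2 : Qf K p' < Qf K p := by omega
  have h3 : p'.1 < p.1 := by
    unfold Qf at h2
    have := (Nat.pow_lt_pow_iff_right (by norm_num)).mp h2
    exact Nat.lt_of_mul_lt_mul_left this
  have h4 : ∀ l, p'.2 l ≤ p.2 l := by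
    intro l
    have e1 := hdeg l
    have e2 : (r / q.gcd r) * p'.2 l ≤ (r / q.gcd r) * p.2 l := by
      rw [e1]
      apply Nat.mul_le_mul_right
      omega
    exact Nat.le_of_mul_le_mul_left e2 hr0
  have hm := mem_JJ.mp hp'
  have h5 : ψ p ≤ ψ p' := R.mono p p' hm.1.1 h3.le (fun i => (hm.2 i).1) h4
  have hψ := R.pos hκ hp
  have hψ' := R.pos hκ hp'
  have h7 : (Qf K p' : ℝ) < Qf K p := by exact_mod_cast h2
  have h8 : (0 : ℝ) < Qf K p' := by exact_mod_cast hQ'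
  unfold Rg at h
  rw [div_le_div_iff₀ hψ hψ'] at h
  nlinarith

open scoped Classical in
lemma T0_fix (R : Rad K L s0 κ ψ) (hκ : 0 < κ) (M : ℕ) (hK0 : 0 < K) {p' : PP ι}
    (hp' : p' ∈ JJ ι s0 M) {r : ℕ} (hr : r ∈ Finset.Ico (Qf K p') (2 * Qf K p')) :
    ∑ p ∈ JJ ι s0 M, ∑ q ∈ Finset.Ico (Qf K p) (2 * Qf K p),
      (if Rg K ψ p ≤ Rg K ψ p' ∧ degP p p' q r then
        ψ p' / ((r / q.gcd r : ℕ) : ℝ) else 0) ≤
      2 * ψ p' * ((r.divisors.filter (fun e => ∀ l, e ∣ p'.2 l)).card : ℝ) := by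
  have hrI := Finset.mem_Ico.mp hr
  have hQ' : 0 < Qf K p' := Qf_pos K p'
  have hr0 : 0 < r := by omega
  have hψ' := (R.pos hκ hp').le
  rw [← Finset.sum_sigma (s := JJ ι s0 M) (t := fun p => Finset.Ico (Qf K p) (2 * Qf K p))
    (f := fun i => (if Rg K ψ i.1 ≤ Rg K ψ p' ∧ degP i.1 p' i.2 r then
        ψ p' / ((r / i.2.gcd r : ℕ) : ℝ) else 0)), ← Finset.sum_filter]
  set A := ((JJ ι s0 M).sigma (fun p => Finset.Ico (Qf K p) (2 * Qf K p))).filter
    (fun i => Rg K ψ i.1 ≤ Rg K ψ p' ∧ degP i.1 p' i.2 r) with hA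
  set T := (r.divisors.filter (fun e => ∀ l, e ∣ p'.2 l)).sigma (fun e => Finset.Icc 1 (2 * e)) with hT
  let φ : (Σ _ : PP ι, ℕ) → (Σ _ : ℕ, ℕ) := fun i => ⟨r / i.2.gcd r, i.2 / i.2.gcd r⟩
  have hinj : Set.InjOn φ A := by
    rintro ⟨⟨s1, a1⟩, q1⟩ h1 ⟨⟨s2, a2⟩, q2⟩ h2 heq
    have h1' := Finset.mem_filter.mp h1
    have h2' := Finset.mem_filter.mp h2
    have h1s := Finset.mem_sigma.mp h1'.1
    have h2s := Finset.mem_sigma.mp h2'.1
    have h1q := Finset.mem_Ico.mp h1s.2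
    have h2q := Finset.mem_Ico.mp h2s.2
    have h1d := h1'.2.2
    have h2d := h2'.2.2
    unfold degP at h1d h2d
    simp only [φ, Sigma.mk.injEq, heq_eq_eq] at heq h1d h2d h1q h2q
    obtain ⟨he1, he2⟩ := heq
    have hp1 : 0 < q1 := lt_of_lt_of_le (Qf_pos K _) h1q.1
    have hp2 : 0 < q2 := lt_of_lt_of_le (Qf_pos K _) h2q.1
    have hg1 : 0 < q1.gcd r := Nat.gcd_pos_of_pos_left r hp1
    have hg2 : 0 < q2.gcd r := Nat.gcd_pos_of_pos_left r hp2
    have hrg1 : (r / q1.gcd r) * q1.gcd r = r := Nat.div_mul_cancel (Nat.gcd_dvd_right _ _)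
    have hrg2 : (r / q2.gcd r) * q2.gcd r = r := Nat.div_mul_cancel (Nat.gcd_dvd_right _ _)
    have hr1 : 0 < r / q1.gcd r := by
      rcases Nat.eq_zero_or_pos (r / q1.gcd r) with h0 | h0
      · rw [h0] at hrg1; omega
      · exact h0
    have hgg : q1.gcd r = q2.gcd r := by
      rw [← he1] at hrg2
      have : (r / q1.gcd r) * q1.gcd r = (r / q1.gcd r) * q2.gcd r := by rw [hrg1, hrg2]
      exact Nat.eq_of_mul_eq_mul_left hr1 this
    have hqq : q1 = q2 := by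
      rw [← Nat.div_mul_cancel (Nat.gcd_dvd_left q1 r), ← Nat.div_mul_cancel (Nat.gcd_dvd_left q2 r),
        he2, hgg]
    subst hqq
    have hss : s1 = s2 := by
      unfold Qf at h1q h2q
      simp only at h1q h2q
      have e1 : 2 ^ (K * s1) < 2 ^ (K * s2 + 1) := by
        calc 2 ^ (K * s1) ≤ q1 := h1q.1
          _ < 2 * 2 ^ (K * s2) := h2q.2
          _ = _ := by ring
      have e2 : 2 ^ (K * s2) < 2 ^ (K * s1 + 1) := by
        calc 2 ^ (K * s2) ≤ q1 := h2q.1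
          _ < 2 * 2 ^ (K * s1) := h1q.2
          _ = _ := by ring
      have e3 := (Nat.pow_lt_pow_iff_right (by norm_num)).mp e1
      have e4 := (Nat.pow_lt_pow_iff_right (by norm_num)).mp e2
      have e5 : K * s1 = K * s2 := by omega
      exact Nat.eq_of_mul_eq_mul_left hK0 e5
    subst hss
    have haa : a1 = a2 := by
      funext l
      have f1 := h1d l
      have f2 := h2d l
      rw [← f2] at f1
      exact Nat.eq_of_mul_eq_mul_left hr1 f1
    subst haa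
    rfl
  have hmaps : ∀ i ∈ A, φ i ∈ T := by
    rintro ⟨⟨s1, a1⟩, q1⟩ h1
    have h1' := Finset.mem_filter.mp h1
    have h1s := Finset.mem_sigma.mp h1'.1
    have h1q := Finset.mem_Ico.mp h1s.2
    have h1d := h1'.2.2
    simp only at h1d h1q
    have hp1 : 0 < q1 := lt_of_lt_of_le (Qf_pos K _) h1q.1
    have hg1 : 0 < q1.gcd r := Nat.gcd_pos_of_pos_left r hp1
    rw [hT, Finset.mem_sigma, Finset.mem_filter, Finset.mem_Icc, Nat.mem_divisors]
    refine ⟨⟨⟨Nat.div_dvd_of_dvd (Nat.gcd_dvd_right _ _), hr0.ne'⟩, ?_⟩, ?_, ?_⟩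
    · intro l
      have hc : Nat.Coprime (r / q1.gcd r) (q1 / q1.gcd r) :=
        (Nat.coprime_div_gcd_div_gcd hg1).symm
      have : (r / q1.gcd r) ∣ (q1 / q1.gcd r) * p'.2 l := ⟨a1 l, (h1d l).symm⟩
      exact hc.dvd_of_dvd_mul_left this
    · exact Nat.div_pos (Nat.le_of_dvd hp1 (Nat.gcd_dvd_left _ _)) hg1
    · exact deg_bound R hκ M h1s.1 hp' h1s.2 hr h1'.2.1 h1'.2.2
  have hsum : ∑ i ∈ A, ψ p' / ((r / i.2.gcd r : ℕ) : ℝ) =
      ∑ x ∈ A.image φ, ψ p' / (x.1 : ℝ) := by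
    rw [Finset.sum_image hinj]
  rw [hsum]
  calc ∑ x ∈ A.image φ, ψ p' / (x.1 : ℝ) ≤ ∑ x ∈ T, ψ p' / (x.1 : ℝ) := by
        apply Finset.sum_le_sum_of_subset_of_nonneg
        · intro x hx
          obtain ⟨i, hi, rfl⟩ := Finset.mem_image.mp hx
          exact hmaps i hi
        · intro x _ _
          positivity
    _ = ∑ e ∈ r.divisors.filter (fun e => ∀ l, e ∣ p'.2 l), ∑ _u ∈ Finset.Icc 1 (2 * e),
          ψ p' / (e : ℝ) := by rw [hT, Finset.sum_sigma]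
    _ = ∑ e ∈ r.divisors.filter (fun e => ∀ l, e ∣ p'.2 l), 2 * ψ p' := by
        apply Finset.sum_congr rfl
        intro e he
        have he0 : 0 < e := Nat.pos_of_mem_divisors (Finset.mem_filter.mp he).1
        have he' : (e : ℝ) ≠ 0 := by exact_mod_cast he0.ne'
        rw [Finset.sum_const, nsmul_eq_mul, Nat.card_Icc, Nat.add_sub_cancel]
        push_cast
        field_simp
    _ = _ := by
        rw [Finset.sum_const, nsmul_eq_mul]
        ring

open scoped Classical in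
lemma box_dvd [Nonempty ι] (R : Rad K L s0 κ ψ) (hκ : 0 < κ) {M s : ℕ} (hs : s0 ≤ s) (hsM : s ≤ M)
    (e : ℕ) (he : 0 < e) :
    ∑ b ∈ box ι s, (if ∀ l, e ∣ b l then ψ ⟨s, b⟩ else 0) ≤
    (e : ℝ)⁻¹ * ∑ b ∈ box ι s, ψ ⟨s, b⟩ := by
  obtain ⟨l0⟩ := ‹Nonempty ι›
  have hjj : ∀ b ∈ box ι s, (⟨s, b⟩ : PP ι) ∈ JJ ι s0 M := by
    intro b hb
    exact mem_JJ.mpr ⟨⟨hs, hsM⟩, mem_box.mp hb⟩
  rw [← Finset.sum_filter]
  set S := (box ι s).filter (fun b => ∀ l, e ∣ b l) with hS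
  let f : (ι → ℕ) × ℕ → (ι → ℕ) := fun x => Function.update x.1 l0 (x.1 l0 - x.2)
  have hge : ∀ b ∈ S, e ≤ b l0 := by
    intro b hb
    have hb' := Finset.mem_filter.mp hb
    exact Nat.le_of_dvd (mem_box.mp hb'.1 l0).1 (hb'.2 l0)
  have hfl : ∀ x : (ι → ℕ) × ℕ, f x l0 = x.1 l0 - x.2 := fun x => by simp [f]
  have hfo : ∀ x : (ι → ℕ) × ℕ, ∀ l, l ≠ l0 → f x l = x.1 l := fun x l hl => by simp [f, hl]
  have hinj : Set.InjOn f (S ×ˢ Finset.range e : Finset ((ι → ℕ) × ℕ)) := by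
    rintro ⟨b, j⟩ h1 ⟨b', j'⟩ h2 heq
    have h1' := Finset.mem_product.mp h1
    have h2' := Finset.mem_product.mp h2
    have hj := Finset.mem_range.mp h1'.2
    have hj' := Finset.mem_range.mp h2'.2
    have hb1 := hge b h1'.1
    have hb2 := hge b' h2'.1
    obtain ⟨u, hu⟩ := (Finset.mem_filter.mp h1'.1).2 l0
    obtain ⟨u', hu'⟩ := (Finset.mem_filter.mp h2'.1).2 l0
    simp only at hj hj' hb1 hb2 hu hu'
    have h0 := congrFun heq l0
    rw [hfl, hfl] at h0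
    simp only at h0
    have huu : u = u' := by
      rcases lt_trichotomy u u' with h | h | h
      · have : e * (u + 1) ≤ e * u' := Nat.mul_le_mul_left _ h
        rw [mul_add, mul_one] at this
        omega
      · exact h
      · have : e * (u' + 1) ≤ e * u := Nat.mul_le_mul_left _ h
        rw [mul_add, mul_one] at this
        omega
    subst huu
    have hjj' : j = j' := by omega
    subst hjj'
    have hbb : b = b' := by
      funext l
      by_cases hl : l = l0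
      · subst hl
        omega
      · have := congrFun heq l
        rwa [hfo _ _ hl, hfo _ _ hl] at this
    subst hbb
    rfl
  have hmaps : ∀ x ∈ S ×ˢ Finset.range e, f x ∈ box ι s := by
    intro x hx
    have hx' := Finset.mem_product.mp hx
    have hj := Finset.mem_range.mp hx'.2
    have hb := mem_box.mp (Finset.mem_filter.mp hx'.1).1
    have hg := hge x.1 hx'.1
    rw [mem_box]
    intro l
    by_cases hl : l = l0
    · subst hl
      rw [hfl]
      have := hb l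
      omega
    · rw [hfo _ _ hl]
      exact hb l
  have h1 : (e : ℝ) * ∑ b ∈ S, ψ ⟨s, b⟩ = ∑ x ∈ S ×ˢ Finset.range e, ψ ⟨s, x.1⟩ := by
    rw [Finset.sum_product, Finset.mul_sum]
    apply Finset.sum_congr rfl
    intro b _
    simp only [Finset.sum_const, Finset.card_range, nsmul_eq_mul]
  have h2 : ∑ x ∈ S ×ˢ Finset.range e, ψ ⟨s, x.1⟩ ≤ ∑ x ∈ S ×ˢ Finset.range e, ψ ⟨s, f x⟩ := by
    apply Finset.sum_le_sum
    intro x hx
    have hm := mem_box.mp (hmaps x hx)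
    apply R.mono ⟨s, x.1⟩ ⟨s, f x⟩ hs (le_refl _) (fun i => (hm i).1)
    intro l
    by_cases hl : l = l0
    · subst hl
      simp only
      rw [hfl]
      omega
    · simp only
      rw [hfo _ _ hl]
  have h3 : ∑ x ∈ S ×ˢ Finset.range e, ψ ⟨s, f x⟩ ≤ ∑ b ∈ box ι s, ψ ⟨s, b⟩ := by
    rw [← Finset.sum_image (g := f) (f := fun b => ψ ⟨s, b⟩) hinj]
    apply Finset.sum_le_sum_of_subset_of_nonneg
    · intro b hb
      obtain ⟨x, hx, rfl⟩ := Finset.mem_image.mp hb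
      exact hmaps x hx
    · intro b hb _
      exact (R.pos hκ (hjj b hb)).le
  have he' : (0 : ℝ) < e := by exact_mod_cast he
  rw [inv_mul_eq_div, le_div_iff₀ he', mul_comm]
  linarith

open scoped Classical in
lemma T0_scale [Nonempty ι] (R : Rad K L s0 κ ψ) (hκ : 0 < κ) {M s : ℕ} (hs : s0 ≤ s) (hsM : s ≤ M)
    (Q : ℕ) (hQ : 2 ^ s ≤ 2 * Q) :
    ∑ b ∈ box ι s, ∑ r ∈ Finset.Ico Q (2 * Q),
      ψ ⟨s, b⟩ * ((r.divisors.filter (fun e => ∀ l, e ∣ b l)).card : ℝ) ≤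
    6 * Q * ∑ b ∈ box ι s, ψ ⟨s, b⟩ := by
  obtain ⟨l0⟩ := ‹Nonempty ι›
  have hjj : ∀ b ∈ box ι s, (⟨s, b⟩ : PP ι) ∈ JJ ι s0 M := by
    intro b hb
    exact mem_JJ.mpr ⟨⟨hs, hsM⟩, mem_box.mp hb⟩
  have h1 : ∀ b ∈ box ι s, ∀ r ∈ Finset.Ico Q (2 * Q),
      ψ ⟨s, b⟩ * ((r.divisors.filter (fun e => ∀ l, e ∣ b l)).card : ℝ) ≤
      ∑ e ∈ Finset.Icc 1 (2 ^ s), (if e ∣ r then (if ∀ l, e ∣ b l then ψ ⟨s, b⟩ else 0) else 0) := by
    intro b hb r _
    have hb' := mem_box.mp hb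
    have hsub : r.divisors.filter (fun e => ∀ l, e ∣ b l) ⊆
        (Finset.Icc 1 (2 ^ s)).filter (fun e => e ∣ r ∧ ∀ l, e ∣ b l) := by
      intro e he
      have he' := Finset.mem_filter.mp he
      have he1 := Nat.mem_divisors.mp he'.1
      have he0 : 0 < e := Nat.pos_of_mem_divisors he'.1
      rw [Finset.mem_filter, Finset.mem_Icc]
      refine ⟨⟨he0, ?_⟩, he1.1, he'.2⟩
      exact (Nat.le_of_dvd (hb' l0).1 (he'.2 l0)).trans (hb' l0).2
    have h2 : ((r.divisors.filter (fun e => ∀ l, e ∣ b l)).card : ℝ) ≤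
        (((Finset.Icc 1 (2 ^ s)).filter (fun e => e ∣ r ∧ ∀ l, e ∣ b l)).card : ℝ) := by
      exact_mod_cast Finset.card_le_card hsub
    have h3 : (0 : ℝ) ≤ ψ ⟨s, b⟩ := (R.pos hκ (hjj b hb)).le
    calc _ ≤ ψ ⟨s, b⟩ *
          (((Finset.Icc 1 (2 ^ s)).filter (fun e => e ∣ r ∧ ∀ l, e ∣ b l)).card : ℝ) := by gcongr
      _ = _ := by
          rw [mul_comm, ← nsmul_eq_mul, ← Finset.sum_const, Finset.sum_filter]
          apply Finset.sum_congr rfl
          intro e _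
          by_cases h4 : e ∣ r <;> by_cases h5 : ∀ l, e ∣ b l <;> simp [h4, h5]
  refine (Finset.sum_le_sum fun b hb => Finset.sum_le_sum fun r hr => h1 b hb r hr).trans ?_
  have h2 : ∑ b ∈ box ι s, ∑ r ∈ Finset.Ico Q (2 * Q), ∑ e ∈ Finset.Icc 1 (2 ^ s),
      (if e ∣ r then (if ∀ l, e ∣ b l then ψ ⟨s, b⟩ else 0) else 0) =
      ∑ e ∈ Finset.Icc 1 (2 ^ s), (((Finset.Ico Q (2 * Q)).filter (fun r => e ∣ r)).card : ℝ) *
        ∑ b ∈ box ι s, (if ∀ l, e ∣ b l then ψ ⟨s, b⟩ else 0) := by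
    have : ∀ b ∈ box ι s, ∑ r ∈ Finset.Ico Q (2 * Q), ∑ e ∈ Finset.Icc 1 (2 ^ s),
      (if e ∣ r then (if ∀ l, e ∣ b l then ψ ⟨s, b⟩ else 0) else 0) =
      ∑ e ∈ Finset.Icc 1 (2 ^ s), (((Finset.Ico Q (2 * Q)).filter (fun r => e ∣ r)).card : ℝ) *
        (if ∀ l, e ∣ b l then ψ ⟨s, b⟩ else 0) := by
      intro b _
      rw [Finset.sum_comm]
      apply Finset.sum_congr rfl
      intro e _
      rw [← Finset.sum_filter, Finset.sum_const, nsmul_eq_mul]
    rw [Finset.sum_congr rfl this, Finset.sum_comm]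
    apply Finset.sum_congr rfl
    intro e _
    rw [Finset.mul_sum]
  rw [h2]
  set W := ∑ b ∈ box ι s, ψ ⟨s, b⟩ with hW
  have hW0 : 0 ≤ W := by
    apply Finset.sum_nonneg
    intro b hb
    exact (R.pos hκ (hjj b hb)).le
  have : Nonempty ι := ⟨l0⟩
  calc _ ≤ ∑ e ∈ Finset.Icc (1 : ℕ) (2 ^ s), (3 * Q / e : ℝ) * ((e : ℝ)⁻¹ * W) := by
        apply Finset.sum_le_sum
        intro e he
        have he' := Finset.mem_Icc.mp he
        apply mul_le_mul
        · exact card_mult' Q e he'.1 (he'.2.trans hQ)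
        · exact box_dvd R hκ hs hsM e he'.1
        · apply Finset.sum_nonneg
          intro b hb
          split_ifs
          · exact (R.pos hκ (hjj b hb)).le
          · exact le_refl _
        · positivity
    _ = 3 * Q * W * ∑ e ∈ Finset.Icc (1 : ℕ) (2 ^ s), (1 : ℝ) / ((e : ℝ) ^ 2) := by
        rw [Finset.mul_sum]
        apply Finset.sum_congr rfl
        intro e he
        have he' := Finset.mem_Icc.mp he
        have : (e : ℝ) ≠ 0 := by
          have : 0 < e := he'.1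
          exact_mod_cast this.ne'
        field_simp
    _ ≤ 3 * Q * W * 2 := by
        apply mul_le_mul_of_nonneg_left (sum_inv_sq_le _) (by positivity)
    _ = _ := by ring

open scoped Classical in
lemma T0_total [Nonempty ι] (R : Rad K L s0 κ ψ) (hκ : 0 < κ) (M : ℕ) (hK0 : 0 < K) :
    ∑ p' ∈ JJ ι s0 M, ∑ r ∈ Finset.Ico (Qf K p') (2 * Qf K p'),
      ∑ p ∈ JJ ι s0 M, ∑ q ∈ Finset.Ico (Qf K p) (2 * Qf K p),
      (if Rg K ψ p ≤ Rg K ψ p' ∧ degP p p' q r then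
        ψ p' / ((r / q.gcd r : ℕ) : ℝ) else 0) ≤
      12 * ∑ p ∈ JJ ι s0 M, Qf K p * ψ p := by
  calc _ ≤ ∑ p' ∈ JJ ι s0 M, ∑ r ∈ Finset.Ico (Qf K p') (2 * Qf K p'),
        2 * ψ p' * ((r.divisors.filter (fun e => ∀ l, e ∣ p'.2 l)).card : ℝ) := by
        apply Finset.sum_le_sum
        intro p' hp'
        apply Finset.sum_le_sum
        intro r hr
        exact T0_fix R hκ M hK0 hp' hr
    _ = ∑ s ∈ Finset.Icc s0 M, 2 *
          ∑ b ∈ box ι s, ∑ r ∈ Finset.Ico (2 ^ (K * s)) (2 * 2 ^ (K * s)),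
          ψ ⟨s, b⟩ * ((r.divisors.filter (fun e => ∀ l, e ∣ b l)).card : ℝ) := by
        rw [JJ, Finset.sum_sigma]
        apply Finset.sum_congr rfl
        intro s _
        rw [Finset.mul_sum]
        apply Finset.sum_congr rfl
        intro b _
        rw [Finset.mul_sum]
        apply Finset.sum_congr rfl
        intro r _
        ring
    _ ≤ ∑ s ∈ Finset.Icc s0 M, 2 *
          (6 * ((2 ^ (K * s) : ℕ) : ℝ) * ∑ b ∈ box ι s, ψ ⟨s, b⟩) := by
        apply Finset.sum_le_sum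
        intro s hs
        have hs' := Finset.mem_Icc.mp hs
        apply mul_le_mul_of_nonneg_left _ (by positivity)
        apply T0_scale R hκ hs'.1 hs'.2
        have h1 : 2 ^ s ≤ 2 ^ (K * s) := by
          apply Nat.pow_le_pow_right (by norm_num)
          exact Nat.le_mul_of_pos_left s hK0
        omega
    _ = 12 * ∑ p ∈ JJ ι s0 M, Qf K p * ψ p := by
        rw [JJ, Finset.sum_sigma, Finset.mul_sum]
        apply Finset.sum_congr rfl
        intro s _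
        rw [Finset.mul_sum, Finset.mul_sum, Finset.mul_sum]
        apply Finset.sum_congr rfl
        intro b _
        unfold Qf
        simp only
        ring

end

end Pool.Agent.Lib.MP_04276e_nt.Ins
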