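import Mathlib
import Pool.Agent.Lib.MP_04276e_nt.Ins.T0

set_option autoImplicit false

namespace Pool.Agent.Lib.MP_04276e_nt.Ins

open MeasureTheory Finset Filter

noncomputable section

variable {ι : Type*} [Fintype ι] [DecidableEq ι]

variable {K L s0 : ℕ} {κ : ℝ} {ψ : PP ι → ℝ}

def EG (α : ι → ℝ) (ψ : PP ι → ℝ) (i : Σ _ : PP ι, ℕ) : Set UnitAddCircle :=
  {t | ‖i.2 • t + (xf α i.1 : UnitAddCircle)‖ ≤ ψ i.1}

open scoped Classical in
lemma pair_vol (α : ι → ℝ) (R : Rad K L s0 κ ψ) (hκ : 0 < κ) (M : ℕ) {p p' : PP ι}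
    (hp : p ∈ JJ ι s0 M) (hp' : p' ∈ JJ ι s0 M) {q r : ℕ}
    (hq : q ∈ Finset.Ico (Qf K p) (2 * Qf K p))
    (hr : r ∈ Finset.Ico (Qf K p') (2 * Qf K p')) (h : Rg K ψ p ≤ Rg K ψ p') :
    volume.real (EG α ψ ⟨p, q⟩ ∩ EG α ψ ⟨p', r⟩) ≤
      12 * ψ p * ψ p' +
      2 * (if badG α ψ p p' q r then ψ p' / ((r / q.gcd r : ℕ) : ℝ) else 0) +
      2 * (if degP p p' q r then ψ p' / ((r / q.gcd r : ℕ) : ℝ) else 0) := by
  have hqI := Finset.mem_Ico.mp hq
  have hrI := Finset.mem_Ico.mp hr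
  have hQ : 0 < Qf K p := Qf_pos K p
  have hQ' : 0 < Qf K p' := Qf_pos K p'
  have hq0 : 0 < q := by omega
  have hr0 : 0 < r := by omega
  have hψ := (R.pos hκ hp).le
  have hψ' := (R.pos hκ hp').le
  have hg0 : 0 < q.gcd r := Nat.gcd_pos_of_pos_left r hq0
  have hr'0 : 0 < r / q.gcd r := Nat.div_pos (Nat.le_of_dvd hr0 (Nat.gcd_dvd_right _ _)) hg0
  have hr' : (0 : ℝ) < ((r / q.gcd r : ℕ) : ℝ) := by exact_mod_cast hr'0
  have hov := overlap q r hq0 hr0 (xf α p) (xf α p') (ψ p) (ψ p') hψ hψ'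
  have hD := ord_gcd R hκ hp hp' h hq hr
  have hset : EG α ψ ⟨p, q⟩ ∩ EG α ψ ⟨p', r⟩ =
    ({t : UnitAddCircle | ‖q • t + (xf α p : UnitAddCircle)‖ ≤ ψ p} ∩
        {t : UnitAddCircle | ‖r • t + (xf α p' : UnitAddCircle)‖ ≤ ψ p'}) := rfl
  rw [hset, measureReal_def]
  refine (ENNReal.toReal_mono ENNReal.ofReal_ne_top hov).trans ?_
  have hb0 : 0 ≤ (if badG α ψ p p' q r then ψ p' / ((r / q.gcd r : ℕ) : ℝ) else 0) := by
    split_ifs <;> positivity
  have hd0 : 0 ≤ (if degP p p' q r then ψ p' / ((r / q.gcd r : ℕ) : ℝ) else 0) := by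
    split_ifs <;> positivity
  by_cases hif : nn (((r / q.gcd r : ℕ) : ℝ) * xf α p - ((q / q.gcd r : ℕ) : ℝ) * xf α p') ≤
          ((r / q.gcd r : ℕ) : ℝ) * ψ p + ((q / q.gcd r : ℕ) : ℝ) * ψ p'
  · rw [if_pos hif, ENNReal.toReal_ofReal (by positivity)]
    have hor : ψ p' / ((r / q.gcd r : ℕ) : ℝ) ≤
        (if badG α ψ p p' q r then ψ p' / ((r / q.gcd r : ℕ) : ℝ) else 0) +
        (if degP p p' q r then ψ p' / ((r / q.gcd r : ℕ) : ℝ) else 0) := by
      by_cases hdeg : degP p p' q r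
      · rw [if_pos hdeg]; linarith
      · have hbad : badG α ψ p p' q r := by
          refine ⟨?_, by linarith⟩
          unfold degP at hdeg
          push Not at hdeg
          exact hdeg
        rw [if_pos hbad]; linarith
    have hle : (2 * ψ p' / ((r / q.gcd r : ℕ) : ℝ)) *
          (2 * (((r / q.gcd r : ℕ) : ℝ) * ψ p + ((q / q.gcd r : ℕ) : ℝ) * ψ p') + 1) ≤
        (2 * ψ p' / ((r / q.gcd r : ℕ) : ℝ)) *
          (6 * (((r / q.gcd r : ℕ) : ℝ) * ψ p) + 1) := by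
      apply mul_le_mul_of_nonneg_left _ (by positivity)
      linarith
    have heq : (2 * ψ p' / ((r / q.gcd r : ℕ) : ℝ)) *
          (6 * (((r / q.gcd r : ℕ) : ℝ) * ψ p) + 1) =
        12 * ψ p * ψ p' + 2 * (ψ p' / ((r / q.gcd r : ℕ) : ℝ)) := by
      field_simp
      ring
    linarith
  · rw [if_neg hif, ENNReal.ofReal_zero, ENNReal.toReal_zero]
    positivity

open scoped Classical in
lemma second_moment [Nonempty ι] (α : ι → ℝ) (c : ℝ) (hc : 0 < c) (w : ℕ) (hD : DioW α w c)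
    (R : Rad K L s0 κ ψ) (hκ : 0 < κ)
    (hκ1 : κ ≤ 1) (E B M : ℕ) (hs0 : 1 ≤ s0) (hcs : 1 < c * 2 ^ s0)
    (hE : 3 * Fintype.card ι + L + 3 ≤ E)
    (hB : w * Fintype.card ι * (E + 3) + 1 ≤ B)
    (hK : 5 + 2 * B + w * Fintype.card ι * (B + L + 2) + w * Fintype.card ι ≤ K)
    (hK' : L ≤ K) (S : ℝ) (hS : S = ∑ p ∈ JJ ι s0 M, Qf K p * ψ p) :
    ∑ i ∈ II ι K s0 M, ∑ j ∈ II ι K s0 M, volume.real (EG α ψ i ∩ EG α ψ j) ≤
      888 * S ^ 2 + 48 * S + 324 * (2 * K + 2) := by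
  have hK0 : 0 < K := by omega
  set v : (Σ _ : PP ι, ℕ) → (Σ _ : PP ι, ℕ) → ℝ := fun i j =>
    volume.real (EG α ψ i ∩ EG α ψ j) with hv
  have hv0 : ∀ i j, 0 ≤ v i j := fun i j => measureReal_nonneg
  have hvsymm : ∀ i j, v i j = v j i := by
    intro i j
    simp only [hv]
    rw [Set.inter_comm]
  have h1 : ∑ i ∈ II ι K s0 M, ∑ j ∈ II ι K s0 M, v i j ≤
      2 * ∑ i ∈ II ι K s0 M, ∑ j ∈ II ι K s0 M, (if Rg K ψ i.1 ≤ Rg K ψ j.1 then v i j else 0) := by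
    have e1 : ∀ i j, v i j ≤ (if Rg K ψ i.1 ≤ Rg K ψ j.1 then v i j else 0) +
        (if Rg K ψ j.1 ≤ Rg K ψ i.1 then v j i else 0) := by
      intro i j
      rcases le_total (Rg K ψ i.1) (Rg K ψ j.1) with h | h
      · rw [if_pos h]
        have : 0 ≤ (if Rg K ψ j.1 ≤ Rg K ψ i.1 then v j i else 0) := by
          split_ifs
          · exact hv0 j i
          · exact le_refl _
        linarith
      · rw [if_pos h, hvsymm j i]
        have : 0 ≤ (if Rg K ψ i.1 ≤ Rg K ψ j.1 then v i j else 0) := by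
          split_ifs
          · exact hv0 i j
          · exact le_refl _
        linarith
    calc ∑ i ∈ II ι K s0 M, ∑ j ∈ II ι K s0 M, v i j ≤
        ∑ i ∈ II ι K s0 M, ∑ j ∈ II ι K s0 M, ((if Rg K ψ i.1 ≤ Rg K ψ j.1 then v i j else 0) +
        (if Rg K ψ j.1 ≤ Rg K ψ i.1 then v j i else 0)) :=
          Finset.sum_le_sum fun i _ => Finset.sum_le_sum fun j _ => e1 i j
      _ = _ := by
          simp_rw [Finset.sum_add_distrib]
          rw [two_mul]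
          congr 1
          rw [Finset.sum_comm]
  refine h1.trans ?_
  have h2 : ∑ i ∈ II ι K s0 M, ∑ j ∈ II ι K s0 M, (if Rg K ψ i.1 ≤ Rg K ψ j.1 then v i j else 0) ≤
      12 * S ^ 2 + 2 * (216 * S ^ 2 + 81 * (2 * K + 2) * κ) + 2 * (12 * S) := by
    have e2 : ∀ i ∈ II ι K s0 M, ∀ j ∈ II ι K s0 M, (if Rg K ψ i.1 ≤ Rg K ψ j.1 then v i j else 0) ≤
        12 * (ψ i.1 * ψ j.1) +
        2 * (if Rg K ψ i.1 ≤ Rg K ψ j.1 then (if badG α ψ i.1 j.1 i.2 j.2 then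
          ψ j.1 / ((j.2 / i.2.gcd j.2 : ℕ) : ℝ) else 0) else 0) +
        2 * (if Rg K ψ i.1 ≤ Rg K ψ j.1 ∧ degP i.1 j.1 i.2 j.2 then
          ψ j.1 / ((j.2 / i.2.gcd j.2 : ℕ) : ℝ) else 0) := by
      rintro ⟨p, q⟩ hi ⟨p', r⟩ hj
      have hi' := Finset.mem_sigma.mp hi
      have hj' := Finset.mem_sigma.mp hj
      simp only at hi' hj' ⊢
      have hψ := (R.pos hκ hi'.1).le
      have hψ' := (R.pos hκ hj'.1).le
      by_cases hR : Rg K ψ p ≤ Rg K ψ p'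
      · rw [if_pos hR, if_pos hR]
        have := pair_vol α R hκ M hi'.1 hj'.1 hi'.2 hj'.2 hR
        simp only [hR, true_and]
        simp only [hv]
        linarith
      · rw [if_neg hR, if_neg hR]
        simp only [hR, false_and, if_false]
        positivity
    refine (Finset.sum_le_sum fun i hi => Finset.sum_le_sum fun j hj => e2 i hi j hj).trans ?_
    simp_rw [Finset.sum_add_distrib]
    have hS' : ∑ i ∈ II ι K s0 M, ψ i.1 = S := by
      rw [II, Finset.sum_sigma, hS]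
      apply Finset.sum_congr rfl
      intro p _
      simp only [Finset.sum_const, nsmul_eq_mul, Nat.card_Ico]
      congr 2
      omega
    have t1 : ∑ i ∈ II ι K s0 M, ∑ j ∈ II ι K s0 M, 12 * (ψ i.1 * ψ j.1)
        = 12 * S ^ 2 := by
      rw [← hS', sq, Finset.sum_mul_sum, Finset.mul_sum]
      apply Finset.sum_congr rfl
      intro i _
      rw [Finset.mul_sum]
    have t2 : ∑ i ∈ II ι K s0 M, ∑ j ∈ II ι K s0 M, 2 * (if Rg K ψ i.1 ≤ Rg K ψ j.1 then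
        (if badG α ψ i.1 j.1 i.2 j.2 then
          ψ j.1 / ((j.2 / i.2.gcd j.2 : ℕ) : ℝ) else 0) else 0) ≤
        2 * (216 * S ^ 2 + 81 * (2 * K + 2) * κ) := by
      have := T1_total α c hc w hD R hκ hκ1 E B M hs0 hcs hE hB hK hK'
      rw [← hS] at this
      refine le_trans (le_of_eq ?_) (mul_le_mul_of_nonneg_left this (by norm_num : (0 : ℝ) ≤ 2))
      simp_rw [II, Finset.sum_sigma, Finset.mul_sum]
      apply Finset.sum_congr rfl
      intro p _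
      rw [Finset.sum_comm]
      apply Finset.sum_congr rfl
      intro p' _
      by_cases hR : Rg K ψ p ≤ Rg K ψ p'
      · simp only [hR, if_true, Finset.mul_sum]
      · simp only [hR, if_false, mul_zero, Finset.sum_const_zero]
    have t3 : ∑ i ∈ II ι K s0 M, ∑ j ∈ II ι K s0 M, 2 * (if Rg K ψ i.1 ≤ Rg K ψ j.1 ∧
        degP i.1 j.1 i.2 j.2 then
          ψ j.1 / ((j.2 / i.2.gcd j.2 : ℕ) : ℝ) else 0) ≤ 2 * (12 * S) := by
      have := T0_total R hκ M hK0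
      rw [← hS] at this
      refine le_trans (le_of_eq ?_) (mul_le_mul_of_nonneg_left this (by norm_num : (0 : ℝ) ≤ 2))
      rw [Finset.sum_comm]
      simp_rw [II, Finset.sum_sigma, Finset.mul_sum]
    linarith
  have h3 : (324 : ℝ) * (2 * K + 2) * κ ≤ 324 * (2 * K + 2) * 1 := by gcongr
  nlinarith

end

end Pool.Agent.Lib.MP_04276e_nt.Ins
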