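import Mathlib
import Pool.Agent.Lib.MP_04276e_nt.Ins.Moment

set_option autoImplicit false

namespace Pool.Agent.Lib.MP_04276e_nt.Ins

open MeasureTheory Finset Filter

noncomputable section

variable {ι : Type*} [Fintype ι] [DecidableEq ι]

/-- positive measure with a uniform constant, general radii -/
lemma posmeas_gen [Nonempty ι] (α : ι → ℝ) (c : ℝ) (hc : 0 < c) (w : ℕ) (hD : DioW α w c)
    (K L E B : ℕ)
    (hE : 3 * Fintype.card ι + L + 3 ≤ E)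
    (hB : w * Fintype.card ι * (E + 3) + 1 ≤ B)
    (hK : 5 + 2 * B + w * Fintype.card ι * (B + L + 2) + w * Fintype.card ι ≤ K)
    (hK' : L ≤ K) :
    ∃ s1 : ℕ, 1 ≤ s1 ∧ ∀ s0 : ℕ, s1 ≤ s0 → ∀ κ : ℝ, 0 < κ → κ ≤ 1 / 2 → ∀ ψ : PP ι → ℝ,
      Rad K L s0 κ ψ →
      Tendsto (fun M => ∑ p ∈ JJ ι s0 M, Qf K p * ψ p) atTop atTop →
      ∃ W : Set UnitAddCircle, MeasurableSet W ∧ ENNReal.ofReal (1 / 1000) ≤ volume W ∧
      ∀ u ∈ W, Set.Infinite {i : Σ _ : PP ι, ℕ | (s0 ≤ i.1.1 ∧ (∀ l, 1 ≤ i.1.2 l ∧ i.1.2 l ≤ 2 ^ i.1.1)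
        ∧ 2 ^ (K * i.1.1) ≤ i.2 ∧ i.2 < 2 * 2 ^ (K * i.1.1)) ∧
        ‖i.2 • u + (xf α i.1 : UnitAddCircle)‖ ≤ ψ i.1} := by
  obtain ⟨s1, hs1⟩ : ∃ s1 : ℕ, 1 / c < 2 ^ s1 := pow_unbounded_of_one_lt _ (by norm_num)
  refine ⟨s1 + 1, by omega, ?_⟩
  intro s0 hs0 κ hκ hκ2 ψ R hStend
  have hs01 : 1 ≤ s0 := by omega
  have hcs : 1 < c * 2 ^ s0 := by
    rw [div_lt_iff₀ hc] at hs1
    have h2 : (2 : ℝ) ^ s1 ≤ 2 ^ s0 := pow_le_pow_right₀ (by norm_num) (by omega)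
    nlinarith
  have hκ1 : κ ≤ 1 := by linarith
  set S : ℕ → ℝ := fun M => ∑ p ∈ JJ ι s0 M, Qf K p * ψ p with hS
  have hmono : Monotone (fun M => II ι K s0 M) := by
    intro M M' hMM i hi
    have hi' := Finset.mem_sigma.mp hi
    have hj := Finset.mem_sigma.mp hi'.1
    have hj' := Finset.mem_Icc.mp hj.1
    apply Finset.mem_sigma.mpr
    refine ⟨Finset.mem_sigma.mpr ⟨Finset.mem_Icc.mpr ⟨hj'.1, hj'.2.trans hMM⟩, hj.2⟩, hi'.2⟩
  have hEmeas : ∀ i, MeasurableSet (EG α ψ i) := fun i => measurableSet_single _ _ _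
  have h1 : ∀ M, 2 * S M ≤ ∑ i ∈ II ι K s0 M, (volume : Measure UnitAddCircle).real (EG α ψ i) := by
    intro M
    rw [II, Finset.sum_sigma, hS, Finset.mul_sum]
    apply Finset.sum_le_sum
    intro p hp
    have hQ : 0 < Qf K p := Qf_pos K p
    have hψ := (R.pos hκ hp).le
    have hψ2 : ψ p ≤ 1 / 2 := by
      refine (R.upJ hp).trans ?_
      have : (1 : ℝ) ≤ Qf K p := by exact_mod_cast hQ
      calc κ / Qf K p ≤ κ / 1 := by gcongr
        _ ≤ 1 / 2 := by linarith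
    have h2 : ∀ q ∈ Finset.Ico (Qf K p) (2 * Qf K p),
        (volume : Measure UnitAddCircle).real (EG α ψ ⟨p, q⟩) = 2 * ψ p := by
      intro q hq
      have hq' := Finset.mem_Ico.mp hq
      have := volume_single q (by omega) (xf α p) (ψ p) hψ2
      rw [measureReal_def]
      change (volume {t : UnitAddCircle | ‖q • t + (xf α p : UnitAddCircle)‖ ≤ ψ p}).toReal = _
      rw [this, ENNReal.toReal_ofReal (by linarith)]
    rw [Finset.sum_congr rfl h2, Finset.sum_const, nsmul_eq_mul, Nat.card_Ico]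
    have : 2 * Qf K p - Qf K p = Qf K p := by omega
    rw [this]
    linarith
  have h2 : ∀ᶠ M in atTop, ∑ i ∈ II ι K s0 M, ∑ j ∈ II ι K s0 M,
      (volume : Measure UnitAddCircle).real (EG α ψ i ∩ EG α ψ j) ≤ 1000 * (S M) ^ 2 := by
    filter_upwards [hStend.eventually_ge_atTop (1 + 324 * (2 * K + 2))] with M hM
    have h3 := second_moment α c hc w hD R hκ hκ1 E B M hs01 hcs hE hB hK hK' (S M) rfl
    refine h3.trans ?_
    have hK0 : (0 : ℝ) ≤ 324 * (2 * K + 2) := by positivity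
    have hS1 : 1 ≤ S M := by linarith
    nlinarith
  have hprob : IsProbabilityMeasure (volume : Measure UnitAddCircle) :=
    ⟨by rw [AddCircle.measure_univ]; simp⟩
  obtain ⟨W, hWm, hWv, hWi⟩ := limsup_pz (volume : Measure UnitAddCircle) (fun M => II ι K s0 M) hmono
    (fun i => EG α ψ i) hEmeas S 1000 (by norm_num) hStend h1 h2
  refine ⟨W, hWm, hWv, ?_⟩
  intro u hu
  refine (hWi u hu).mono ?_
  rintro i ⟨⟨M, hM⟩, hi⟩
  have hi' := Finset.mem_sigma.mp hM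
  have hj := mem_JJ.mp hi'.1
  have hj' := Finset.mem_Ico.mp hi'.2
  exact ⟨⟨hj.1.1, hj.2, hj'.1, hj'.2⟩, hi⟩

end

end Pool.Agent.Lib.MP_04276e_nt.Ins
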