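import Mathlib
import Pool.Agent.Lib.MP_04276e_nt.Ins.PosMeas

set_option autoImplicit false

namespace Pool.Agent.Lib.MP_04276e_nt.Ins

open MeasureTheory Finset Filter

noncomputable section

def NN (K m j : ℕ) : ℕ := (j / (2 * K + 1)) / ((K + 1) * (m + 2)) - 1

lemma arith_key (K m s0 j0 J j u S : ℕ) (hK : 1 ≤ K) (hj0 : (2 * K + 1) * s0 ≤ j0) (h1 : j0 ≤ j)
    (h2 : j < J) (hu : u < NN K m j) (hS : S ≤ m * NN K m j) :
    NN K m j ≤ 2 * (j / (2 * K + 1)) - u ∧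
    u ≤ 2 * (j / (2 * K + 1)) ∧ K * (2 * (j / (2 * K + 1)) - u) + S ≤ j ∧
      s0 ≤ 2 * (j / (2 * K + 1)) - u ∧ 2 * (j / (2 * K + 1)) - u ≤ J ∧
      j - K * (2 * (j / (2 * K + 1)) - u) - S < 2 * (j / (2 * K + 1)) - u := by
  set q := j / (2 * K + 1) with hq
  have hmod : (2 * K + 1) * q + j % (2 * K + 1) = j := Nat.div_add_mod j (2 * K + 1)
  have hr : j % (2 * K + 1) < 2 * K + 1 := Nat.mod_lt _ (by omega)
  set r := j % (2 * K + 1) with hrr
  have hqs : s0 ≤ q := by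
    have : (2 * K + 1) * s0 ≤ j := hj0.trans h1
    rw [hq, Nat.le_div_iff_mul_le (by omega)]
    linarith
  have hN : NN K m j = q / ((K + 1) * (m + 2)) - 1 := rfl
  set N := NN K m j with hNN
  have hN1 : 1 ≤ N := by omega
  have hNq : (N + 1) * ((K + 1) * (m + 2)) ≤ q := by
    have h3 : N + 1 = q / ((K + 1) * (m + 2)) := by omega
    rw [h3]
    exact Nat.div_mul_le_self _ _
  have hA : (N + 1) * (K + 1) ≤ q := by
    refine le_trans ?_ hNq
    calc (N + 1) * (K + 1) = (N + 1) * (K + 1) * 1 := by ring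
      _ ≤ (N + 1) * (K + 1) * (m + 2) := Nat.mul_le_mul_left _ (by omega)
      _ = _ := by ring
  have hB : (N + 1) * (m + 2) ≤ q := by
    refine le_trans ?_ hNq
    calc (N + 1) * (m + 2) = 1 * ((N + 1) * (m + 2)) := by ring
      _ ≤ (K + 1) * ((N + 1) * (m + 2)) := Nat.mul_le_mul_right _ (by omega)
      _ = _ := by ring
  obtain ⟨v, hv⟩ : ∃ v, v = 2 * q - u := ⟨_, rfl⟩
  have hNle : N ≤ q := by nlinarith
  have huq : u ≤ 2 * q := by omega
  have hvu : v + u = 2 * q := by omega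
  have hKv : K * v + K * u = 2 * (K * q) := by
    have := congrArg (fun x => K * x) hvu
    rw [mul_add] at this
    rw [this]
    ring
  have hKu : (K + 1) * (u + 1) ≤ (K + 1) * N := Nat.mul_le_mul_left _ hu
  have hj : 2 * (K * q) + q + r = j := by
    rw [← hmod]
    ring
  have hKN : (N + 1) * (K + 1) = (K + 1) * N + K + 1 := by ring
  have hKu' : (K + 1) * (u + 1) = K * u + u + K + 1 := by ring
  have hSm : S ≤ q := by
    refine hS.trans (le_trans ?_ hB)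
    nlinarith
  have hKq : q ≤ K * q := Nat.le_mul_of_pos_left q (by omega)
  rw [← hv]
  refine ⟨by omega, huq, by omega, by omega, by omega, by omega⟩

lemma inj_sum (K m s0 : ℕ) (hK : 1 ≤ K) (g : ℕ → ℝ) (hg : ∀ j, 0 ≤ g j) (j0 J : ℕ)
    (hj0 : (2 * K + 1) * s0 ≤ j0) :
    ∑ j ∈ Finset.Ico j0 J, ((NN K m j : ℕ) : ℝ) ^ (m + 1) * g j ≤
    ∑ s ∈ Finset.Icc s0 J, ∑ e ∈ Fintype.piFinset (fun _ : Fin (m + 1) => Finset.range s),
      g (K * s + ∑ i, e i) := by
  set A := (Finset.Ico j0 J).sigma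
    (fun j => Fintype.piFinset (fun _ : Fin (m + 1) => Finset.range (NN K m j))) with hA
  set B := (Finset.Icc s0 J).sigma
    (fun s => Fintype.piFinset (fun _ : Fin (m + 1) => Finset.range s)) with hB
  let φ : (Σ _ : ℕ, (Fin (m + 1) → ℕ)) → (Σ _ : ℕ, (Fin (m + 1) → ℕ)) := fun x =>
    ⟨2 * (x.1 / (2 * K + 1)) - x.2 0, (Fin.snoc (fun i : Fin m => x.2 i.succ)
      (x.1 - K * (2 * (x.1 / (2 * K + 1)) - x.2 0) - ∑ i : Fin m, x.2 i.succ) : Fin (m + 1) → ℕ)⟩
  have hxm : ∀ x ∈ A, (j0 ≤ x.1 ∧ x.1 < J) ∧ ∀ i, x.2 i < NN K m x.1 := by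
    intro x hx
    have h := Finset.mem_sigma.mp hx
    have h1 := Finset.mem_Ico.mp h.1
    have h2 := Fintype.mem_piFinset.mp h.2
    exact ⟨h1, fun i => Finset.mem_range.mp (h2 i)⟩
  have key : ∀ x ∈ A, _ := fun x hx =>
    arith_key K m s0 j0 J x.1 (x.2 0) (∑ i : Fin m, x.2 i.succ) hK hj0 (hxm x hx).1.1 (hxm x hx).1.2
      ((hxm x hx).2 0) (by
        calc ∑ i : Fin m, x.2 i.succ ≤ ∑ _i : Fin m, NN K m x.1 :=
              Finset.sum_le_sum (fun i _ => ((hxm x hx).2 i.succ).le)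
          _ = m * NN K m x.1 := by simp)
  have hval : ∀ x ∈ A, K * (φ x).1 + ∑ i, (φ x).2 i = x.1 := by
    intro x hx
    obtain ⟨_, _, h3, _⟩ := key x hx
    simp only [φ]
    rw [Fin.sum_univ_castSucc]
    simp only [Fin.snoc_castSucc, Fin.snoc_last]
    omega
  have hmaps : ∀ x ∈ A, φ x ∈ B := by
    intro x hx
    obtain ⟨h1, h2, h3, h4, h5, h6⟩ := key x hx
    rw [hB, Finset.mem_sigma, Finset.mem_Icc, Fintype.mem_piFinset]
    refine ⟨⟨h4, h5⟩, ?_⟩
    intro i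
    rw [Finset.mem_range]
    simp only [φ]
    refine Fin.lastCases ?_ (fun i => ?_) i
    · rw [Fin.snoc_last]
      exact h6
    · rw [Fin.snoc_castSucc]
      exact ((hxm x hx).2 _).trans_le h1
  have hinj : Set.InjOn φ A := by
    intro x hx y hy hxy
    have e1 := hval x hx
    have e2 := hval y hy
    rw [hxy, e2] at e1
    obtain ⟨j, a⟩ := x
    obtain ⟨j', a'⟩ := y
    simp only at e1
    subst e1
    obtain ⟨_, h2, _⟩ := key _ hx
    obtain ⟨_, h2', _⟩ := key _ hy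
    simp only at h2 h2'
    simp only [φ, Sigma.mk.injEq, heq_eq_eq] at hxy
    have h0 : a 0 = a' 0 := by omega
    have haa : a = a' := by
      funext i
      refine Fin.cases h0 (fun i => ?_) i
      have := congrFun hxy.2 i.castSucc
      simpa only [Fin.snoc_castSucc] using this
    subst haa
    rfl
  have h1 : ∑ j ∈ Finset.Ico j0 J, ((NN K m j : ℕ) : ℝ) ^ (m + 1) * g j =
      ∑ x ∈ A, g (K * (φ x).1 + ∑ i, (φ x).2 i) := by
    rw [hA, Finset.sum_sigma]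
    apply Finset.sum_congr rfl
    intro j hj
    have : ∀ a ∈ Fintype.piFinset (fun _ : Fin (m + 1) => Finset.range (NN K m j)),
        g (K * (φ ⟨j, a⟩).1 + ∑ i, (φ ⟨j, a⟩).2 i) = g j := by
      intro a ha
      rw [hval ⟨j, a⟩ (Finset.mem_sigma.mpr ⟨hj, ha⟩)]
    rw [Finset.sum_congr rfl this, Finset.sum_const, Fintype.card_piFinset, nsmul_eq_mul]
    simp
  rw [h1, ← Finset.sum_sigma (s := Finset.Icc s0 J)
    (t := fun s => Fintype.piFinset (fun _ : Fin (m + 1) => Finset.range s))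
    (f := fun x => g (K * x.1 + ∑ i, x.2 i)),
    ← Finset.sum_image (g := φ) (f := fun x => g (K * x.1 + ∑ i, x.2 i)) hinj]
  apply Finset.sum_le_sum_of_subset_of_nonneg
  · intro y hy
    obtain ⟨x, hx, rfl⟩ := Finset.mem_image.mp hy
    exact hmaps x hx
  · intro x _ _
    exact hg _

lemma box_dyadic (K m s c1 C0 : ℕ) (G : ℕ → ℝ) (hG : ∀ a b, 1 ≤ a → a ≤ b → G b ≤ G a)
    (hG0 : ∀ n, 0 ≤ G n) (hC0 : 1 ≤ C0) (hC : C0 * 2 ^ (m + 1) ≤ 2 ^ c1) :
    ∑ e ∈ Fintype.piFinset (fun _ : Fin (m + 1) => Finset.range s),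
      (2 : ℝ) ^ (K * s + ∑ i, e i) * G (2 ^ (c1 + (K * s + ∑ i, e i))) ≤
    ∑ b ∈ box (Fin (m + 1)) s, (2 : ℝ) ^ (K * s) * G (C0 * (2 ^ (K * s) * ∏ i, b i)) := by
  set E := Fintype.piFinset (fun _ : Fin (m + 1) => Finset.range s) with hE
  let D : (Fin (m + 1) → ℕ) → Finset (Fin (m + 1) → ℕ) := fun e =>
    Fintype.piFinset (fun i => Finset.Ico (2 ^ e i) (2 ^ (e i + 1)))
  have hD : ∀ e b, b ∈ D e ↔ ∀ i, 2 ^ e i ≤ b i ∧ b i < 2 ^ (e i + 1) := by
    intro e b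
    simp only [D, Fintype.mem_piFinset, Finset.mem_Ico]
  have hcard : ∀ e, (((D e).card : ℕ) : ℝ) = 2 ^ (∑ i, e i) := by
    intro e
    simp only [D]
    rw [Fintype.card_piFinset]
    push_cast
    rw [← Finset.prod_pow_eq_pow_sum]
    apply Finset.prod_congr rfl
    intro i _
    rw [Nat.card_Ico]
    have : 2 ^ (e i + 1) - 2 ^ e i = 2 ^ e i := by rw [pow_succ]; omega
    rw [this]
    push_cast
    rfl
  have h1 : ∀ e ∈ E, (2 : ℝ) ^ (K * s + ∑ i, e i) * G (2 ^ (c1 + (K * s + ∑ i, e i))) ≤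
      ∑ b ∈ D e, (2 : ℝ) ^ (K * s) * G (C0 * (2 ^ (K * s) * ∏ i, b i)) := by
    intro e _
    have h2 : ∀ b ∈ D e, (2 : ℝ) ^ (K * s) * G (2 ^ (c1 + (K * s + ∑ i, e i))) ≤
        (2 : ℝ) ^ (K * s) * G (C0 * (2 ^ (K * s) * ∏ i, b i)) := by
      intro b hb
      have hb' := (hD e b).mp hb
      apply mul_le_mul_of_nonneg_left _ (by positivity)
      apply hG
      · have : 1 ≤ ∏ i, b i := by
          apply Nat.one_le_iff_ne_zero.mpr
          rw [Finset.prod_ne_zero_iff]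
          intro i _
          have := (hb' i).1
          have : 0 < 2 ^ e i := by positivity
          omega
        have h3 : 1 ≤ 2 ^ (K * s) := Nat.one_le_two_pow
        have h4 : 0 < C0 * (2 ^ (K * s) * ∏ i, b i) := by positivity
        exact h4
      · have h3 : ∏ i, b i ≤ ∏ i : Fin (m + 1), 2 ^ (e i + 1) :=
          Finset.prod_le_prod (fun i _ => Nat.zero_le _) (fun i _ => (hb' i).2.le)
        have h4 : ∏ i : Fin (m + 1), 2 ^ (e i + 1) = 2 ^ (m + 1) * 2 ^ (∑ i, e i) := by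
          rw [Finset.prod_pow_eq_pow_sum, Finset.sum_add_distrib]
          simp only [Finset.sum_const, Finset.card_univ, Fintype.card_fin, smul_eq_mul, mul_one]
          rw [pow_add, mul_comm]
        calc C0 * (2 ^ (K * s) * ∏ i, b i) ≤ C0 * (2 ^ (K * s) * (2 ^ (m + 1) * 2 ^ (∑ i, e i))) := by
              rw [← h4]
              gcongr
          _ = (C0 * 2 ^ (m + 1)) * (2 ^ (K * s) * 2 ^ (∑ i, e i)) := by ring
          _ ≤ 2 ^ c1 * (2 ^ (K * s) * 2 ^ (∑ i, e i)) := Nat.mul_le_mul_right _ hC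
          _ = _ := by rw [pow_add, pow_add]
    refine le_trans (le_of_eq ?_) (Finset.sum_le_sum h2)
    rw [Finset.sum_const, nsmul_eq_mul, hcard, pow_add]
    ring
  refine (Finset.sum_le_sum h1).trans ?_
  rw [← Finset.sum_sigma (s := E) (t := D)
    (f := fun x => (2 : ℝ) ^ (K * s) * G (C0 * (2 ^ (K * s) * ∏ i, x.2 i)))]
  have hinj : Set.InjOn (fun x : (Σ _ : (Fin (m + 1) → ℕ), (Fin (m + 1) → ℕ)) => x.2)
      (E.sigma D) := by
    rintro ⟨e, b⟩ hx ⟨e', b'⟩ hy hxy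
    simp only at hxy
    subst hxy
    have h1 := (hD e b).mp (Finset.mem_sigma.mp hx).2
    have h2 := (hD e' b).mp (Finset.mem_sigma.mp hy).2
    have : e = e' := by
      funext i
      have e1 : 2 ^ e i < 2 ^ (e' i + 1) := (h1 i).1.trans_lt (h2 i).2
      have e2 : 2 ^ e' i < 2 ^ (e i + 1) := (h2 i).1.trans_lt (h1 i).2
      have e3 := (Nat.pow_lt_pow_iff_right (by norm_num)).mp e1
      have e4 := (Nat.pow_lt_pow_iff_right (by norm_num)).mp e2
      omega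
    subst this
    rfl
  rw [← Finset.sum_image (g := fun x : (Σ _ : (Fin (m + 1) → ℕ), (Fin (m + 1) → ℕ)) => x.2)
    (f := fun b => (2 : ℝ) ^ (K * s) * G (C0 * (2 ^ (K * s) * ∏ i, b i))) hinj]
  apply Finset.sum_le_sum_of_subset_of_nonneg
  · intro b hb
    obtain ⟨⟨e, b'⟩, hx, rfl⟩ := Finset.mem_image.mp hb
    have hx' := Finset.mem_sigma.mp hx
    have h2 := (hD e b').mp hx'.2
    have h3 := Fintype.mem_piFinset.mp hx'.1
    rw [mem_box]
    intro i
    have h4 := Finset.mem_range.mp (h3 i)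
    have h5 : 0 < 2 ^ e i := by positivity
    refine ⟨by have := (h2 i).1; simp only at this ⊢; omega, ?_⟩
    refine ((h2 i).2.le).trans ?_
    exact Nat.pow_le_pow_right (by norm_num) h4
  · intro b _ _
    have := hG0 (C0 * (2 ^ (K * s) * ∏ i, b i))
    positivity

end

end Pool.Agent.Lib.MP_04276e_nt.Ins
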