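import Mathlib
import Pool.Agent.Lib.MP_04276e_nt.Ins.Div

set_option autoImplicit false

namespace Pool.Agent.Lib.MP_04276e_nt.Ins

open MeasureTheory Finset Filter

noncomputable section

lemma log_le_of_lt (k n : ℕ) (h : n < 2 ^ (k + 1)) (hn : 1 ≤ n) : Real.log n ≤ (k : ℝ) + 1 := by
  have h1 : (n : ℝ) ≤ 2 ^ (k + 1) := by exact_mod_cast h.le
  have hn' : (0 : ℝ) < n := by exact_mod_cast hn
  have h2 := Real.log_le_log hn' h1
  rw [Real.log_pow] at h2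
  have h3 : Real.log 2 ≤ 1 := by
    have := Real.log_two_lt_d9
    linarith
  have h4 : ((k + 1 : ℕ) : ℝ) * Real.log 2 ≤ ((k + 1 : ℕ) : ℝ) * 1 := by gcongr
  push_cast at h2 h4
  linarith

/-- condensation -/
lemma condense (ψ : ℕ → ℝ) (hψ : Antitone ψ) (h0 : ∀ n, 0 ≤ ψ n) (d : ℕ) (hd : 1 ≤ d)
    (h : Summable (fun j : ℕ => (2 : ℝ) ^ j * ψ (2 ^ j) * ((j : ℝ) + 1) ^ d)) :
    Summable (fun n : ℕ => ψ n * Real.log n ^ d) := by
  have hlog : ∀ n : ℕ, 0 ≤ Real.log n := fun n => Real.log_natCast_nonneg n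
  have ha0 : ∀ j : ℕ, 0 ≤ (2 : ℝ) ^ j * ψ (2 ^ j) * ((j : ℝ) + 1) ^ d := by
    intro j
    have := h0 (2 ^ j)
    positivity
  have hf0 : ∀ n : ℕ, 0 ≤ ψ n * Real.log n ^ d := by
    intro n
    have := h0 n
    have := hlog n
    positivity
  have key : ∀ N : ℕ, ∑ n ∈ Finset.range (2 ^ N), ψ n * Real.log n ^ d ≤
      ∑ j ∈ Finset.range N, (2 : ℝ) ^ j * ψ (2 ^ j) * ((j : ℝ) + 1) ^ d := by
    intro N
    induction N with
    | zero =>
      simp only [pow_zero, Finset.range_one, Finset.sum_singleton, Nat.cast_zero, Real.log_zero,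
        Finset.range_zero, Finset.sum_empty]
      rw [zero_pow (by omega), mul_zero]
    | succ N ih =>
      have hle : 2 ^ N ≤ 2 ^ (N + 1) := Nat.pow_le_pow_right (by norm_num) (by omega)
      rw [Finset.sum_range_succ, ← Finset.sum_range_add_sum_Ico _ hle]
      apply add_le_add ih
      have h1 : ∀ n ∈ Finset.Ico (2 ^ N) (2 ^ (N + 1)), ψ n * Real.log n ^ d ≤
          ψ (2 ^ N) * ((N : ℝ) + 1) ^ d := by
        intro n hn
        have hn' := Finset.mem_Ico.mp hn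
        have hp : 0 < 2 ^ N := by positivity
        have h2 := log_le_of_lt N n hn'.2 (by omega)
        have h3 := hψ hn'.1
        have h4 := h0 (2 ^ N)
        have h5 := hlog n
        gcongr
      refine (Finset.sum_le_sum h1).trans ?_
      rw [Finset.sum_const, nsmul_eq_mul, Nat.card_Ico]
      have e : 2 ^ (N + 1) - 2 ^ N = 2 ^ N := by rw [pow_succ]; omega
      rw [e]
      push_cast
      rw [mul_assoc]
  apply summable_of_sum_range_le hf0 (c := ∑' j : ℕ, (2 : ℝ) ^ j * ψ (2 ^ j) * ((j : ℝ) + 1) ^ d)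
  intro n
  have h1 : n ≤ 2 ^ n := Nat.lt_two_pow_self.le
  calc ∑ i ∈ Finset.range n, ψ i * Real.log i ^ d ≤ ∑ i ∈ Finset.range (2 ^ n), ψ i * Real.log i ^ d := by
        apply Finset.sum_le_sum_of_subset_of_nonneg
        · exact Finset.range_subset_range.mpr h1
        · intro i _ _
          exact hf0 i
    _ ≤ _ := key n
    _ ≤ _ := h.sum_le_tsum _ (fun j _ => ha0 j)

lemma not_summable_beta (ψ : ℕ → ℝ) (hψ : Antitone ψ) (h0 : ∀ n, 0 ≤ ψ n) (d : ℕ) (hd : 1 ≤ d)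
    (hdiv : ¬ Summable (fun n : ℕ => ψ n * Real.log n ^ d)) :
    ¬ Summable (fun j : ℕ => min 1 ((2 : ℝ) ^ j * ψ (2 ^ j)) * ((j : ℝ) + 1) ^ d) := by
  intro h
  apply hdiv
  apply condense ψ hψ h0 d hd
  have h1 := h.tendsto_atTop_zero
  have h2 : ∀ᶠ j : ℕ in atTop, min 1 ((2 : ℝ) ^ j * ψ (2 ^ j)) * ((j : ℝ) + 1) ^ d < 1 :=
    h1.eventually_lt_const (by norm_num)
  apply h.congr_atTop
  filter_upwards [h2] with j hj
  have h3 : (1 : ℝ) ≤ ((j : ℝ) + 1) ^ d := by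
    apply one_le_pow₀
    have : (0 : ℝ) ≤ j := Nat.cast_nonneg j
    linarith
  rcases le_total 1 ((2 : ℝ) ^ j * ψ (2 ^ j)) with h4 | h4
  · rw [min_eq_left h4] at hj
    linarith
  · rw [min_eq_right h4]

lemma NN_lower (K m c1 j : ℕ) (hj : 8 * ((2 * K + 1) * ((K + 1) * (m + 2))) + c1 + 1 ≤ j) :
    ((c1 + j : ℕ) + 1 : ℝ) / (4 * (((2 * K + 1) * ((K + 1) * (m + 2)) : ℕ) : ℝ)) ≤ (NN K m j : ℝ) := by
  set D := (2 * K + 1) * ((K + 1) * (m + 2)) with hD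
  have hD0 : 0 < D := by positivity
  have hD' : (0 : ℝ) < D := by exact_mod_cast hD0
  have h1 : NN K m j = j / D - 1 := by
    unfold NN
    rw [Nat.div_div_eq_div_mul]
  have h2 : j < D * (j / D + 1) := Nat.lt_mul_div_succ j hD0
  have h3 : j ≤ D * (NN K m j + 2) := by
    refine h2.le.trans ?_
    apply Nat.mul_le_mul_left
    omega
  rw [div_le_iff₀ (by positivity)]
  have h4 : (j : ℝ) ≤ D * ((NN K m j : ℝ) + 2) := by exact_mod_cast h3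
  have h5 : (8 : ℝ) * D + c1 + 1 ≤ j := by exact_mod_cast hj
  push_cast
  nlinarith

lemma tendsto_T (m K s0 C0 : ℕ) (hK : 1 ≤ K) (hC0 : 1 ≤ C0) (ψ : ℕ → ℝ) (hψ : Antitone ψ)
    (h0 : ∀ n, 0 ≤ ψ n) (hdiv : ¬ Summable (fun n : ℕ => ψ n * Real.log n ^ (m + 1)))
    (G : ℕ → ℝ) (hG : ∀ a b, 1 ≤ a → a ≤ b → G b ≤ G a) (hG0 : ∀ n, 0 ≤ G n)
    (hGl : ∀ j : ℕ, min 1 ((2 : ℝ) ^ j * ψ (2 ^ j)) ≤ (2 : ℝ) ^ j * G (2 ^ j)) :
    Tendsto (fun M => ∑ s ∈ Finset.Icc s0 M, ∑ b ∈ box (Fin (m + 1)) s,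
      (2 : ℝ) ^ (K * s) * G (C0 * (2 ^ (K * s) * ∏ i, b i))) atTop atTop := by
  obtain ⟨c1, hc1⟩ : ∃ c1 : ℕ, C0 * 2 ^ (m + 1) ≤ 2 ^ c1 :=
    ⟨C0 * 2 ^ (m + 1), Nat.lt_two_pow_self.le⟩
  set D := (2 * K + 1) * ((K + 1) * (m + 2)) with hD
  have hD0 : 0 < D := by positivity
  have hD' : (0 : ℝ) < D := by exact_mod_cast hD0
  set j0 := (2 * K + 1) * s0 + (8 * D + c1 + 1) with hj0
  set f : ℕ → ℝ := fun j => min 1 ((2 : ℝ) ^ j * ψ (2 ^ j)) * ((j : ℝ) + 1) ^ (m + 1) with hf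
  have hf0 : ∀ j, 0 ≤ f j := by
    intro j
    have := h0 (2 ^ j)
    simp only [hf]
    positivity
  have hns := not_summable_beta ψ hψ h0 (m + 1) (by omega) hdiv
  have hns' : ¬ Summable (fun i => f (i + (c1 + j0))) := by
    rw [summable_nat_add_iff (c1 + j0)]
    exact hns
  have ht := (not_summable_iff_tendsto_nat_atTop_of_nonneg (fun i => hf0 (i + (c1 + j0)))).mp hns'
  have ht2 : Tendsto (fun M => ∑ i ∈ Finset.range (M - j0), f (i + (c1 + j0))) atTop atTop :=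
    ht.comp (tendsto_sub_atTop_nat j0)
  set c' : ℝ := (1 / 2 ^ c1) * (1 / (4 * (D : ℝ))) ^ (m + 1) with hc'
  have hc'0 : 0 < c' := by positivity
  apply tendsto_atTop_mono _ (ht2.const_mul_atTop hc'0)
  intro M
  have hg0 : ∀ j, 0 ≤ (2 : ℝ) ^ j * G (2 ^ (c1 + j)) := by
    intro j
    have := hG0 (2 ^ (c1 + j))
    positivity
  have h1 := inj_sum K m s0 hK (fun j => (2 : ℝ) ^ j * G (2 ^ (c1 + j))) hg0 j0 M (by omega)
  have h2 : ∑ s ∈ Finset.Icc s0 M, ∑ e ∈ Fintype.piFinset (fun _ : Fin (m + 1) => Finset.range s),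
      (fun j => (2 : ℝ) ^ j * G (2 ^ (c1 + j))) (K * s + ∑ i, e i) ≤
      ∑ s ∈ Finset.Icc s0 M, ∑ b ∈ box (Fin (m + 1)) s,
      (2 : ℝ) ^ (K * s) * G (C0 * (2 ^ (K * s) * ∏ i, b i)) := by
    apply Finset.sum_le_sum
    intro s _
    exact box_dyadic K m s c1 C0 G hG hG0 hC0 hc1
  refine le_trans ?_ (h1.trans h2)
  have h3 : ∑ i ∈ Finset.range (M - j0), f (i + (c1 + j0)) = ∑ j ∈ Finset.Ico j0 M, f (c1 + j) := by
    rw [Finset.sum_Ico_eq_sum_range]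
    apply Finset.sum_congr rfl
    intro i _
    congr 1
    omega
  rw [h3, Finset.mul_sum]
  apply Finset.sum_le_sum
  intro j hj
  have hj' := Finset.mem_Ico.mp hj
  have h4 := NN_lower K m c1 j (by omega)
  rw [← hD] at h4
  have h5 := hGl (c1 + j)
  have h6 : (1 / 2 ^ c1 : ℝ) * min 1 ((2 : ℝ) ^ (c1 + j) * ψ (2 ^ (c1 + j))) ≤
      (2 : ℝ) ^ j * G (2 ^ (c1 + j)) := by
    calc (1 / 2 ^ c1 : ℝ) * min 1 ((2 : ℝ) ^ (c1 + j) * ψ (2 ^ (c1 + j)))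
        ≤ (1 / 2 ^ c1 : ℝ) * ((2 : ℝ) ^ (c1 + j) * G (2 ^ (c1 + j))) := by gcongr
      _ = _ := by rw [pow_add]; field_simp
  have h7 : (((c1 + j : ℕ) + 1 : ℝ) / (4 * (D : ℝ))) ^ (m + 1) ≤ ((NN K m j : ℕ) : ℝ) ^ (m + 1) := by
    apply pow_le_pow_left₀ (by positivity)
    exact h4
  have hmin : 0 ≤ min 1 ((2 : ℝ) ^ (c1 + j) * ψ (2 ^ (c1 + j))) := by
    have := h0 (2 ^ (c1 + j))
    positivity
  calc c' * f (c1 + j) = (((c1 + j : ℕ) + 1 : ℝ) / (4 * (D : ℝ))) ^ (m + 1) *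
        ((1 / 2 ^ c1 : ℝ) * min 1 ((2 : ℝ) ^ (c1 + j) * ψ (2 ^ (c1 + j)))) := by
        simp only [hc', hf]
        rw [div_pow, div_pow]
        ring
    _ ≤ ((NN K m j : ℕ) : ℝ) ^ (m + 1) * ((2 : ℝ) ^ j * G (2 ^ (c1 + j))) := by
        apply mul_le_mul h7 h6 (by positivity) (by positivity)

end

end Pool.Agent.Lib.MP_04276e_nt.Ins
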