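import Mathlib
import Pool.Agent.Lib.MP_04276e_nt.Ins.BC
import Pool.Agent.Lib.MP_04276e_nt.Ins.Div2

set_option autoImplicit false

namespace Pool.Agent.Lib.MP_04276e_nt.Ins

open MeasureTheory Finset Filter

noncomputable section

/-- truncated radius -/
def GG (ψ : ℕ → ℝ) (b : ℝ) (n : ℕ) : ℝ := min (1 / (n : ℝ)) (max (ψ n) ((n : ℝ) ^ (-b)))

lemma GG_nonneg (ψ : ℕ → ℝ) (b : ℝ) (n : ℕ) : 0 ≤ GG ψ b n := by
  unfold GG
  apply le_min (by positivity)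
  exact le_max_of_le_right (Real.rpow_nonneg (Nat.cast_nonneg n) _)

lemma GG_anti (ψ : ℕ → ℝ) (hψ : Antitone ψ) (b : ℝ) (hb : 0 ≤ b) (x y : ℕ) (hx : 1 ≤ x)
    (hxy : x ≤ y) : GG ψ b y ≤ GG ψ b x := by
  have hx' : (0 : ℝ) < x := by exact_mod_cast hx
  have hxy' : (x : ℝ) ≤ y := by exact_mod_cast hxy
  unfold GG
  apply min_le_min
  · exact one_div_le_one_div_of_le hx' hxy'
  · apply max_le_max (hψ hxy)
    exact Real.rpow_le_rpow_of_nonpos hx' hxy' (by linarith)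

lemma GG_low (ψ : ℕ → ℝ) (b : ℝ) (hb : 1 ≤ b) (n : ℕ) (hn : 1 ≤ n) :
    (n : ℝ) ^ (-b) ≤ GG ψ b n := by
  have hn' : (1 : ℝ) ≤ n := by exact_mod_cast hn
  unfold GG
  apply le_min
  · rw [one_div, ← Real.rpow_neg_one]
    exact Real.rpow_le_rpow_of_exponent_le hn' (by linarith)
  · exact le_max_right _ _

lemma GG_two (ψ : ℕ → ℝ) (b : ℝ) (j : ℕ) :
    min 1 ((2 : ℝ) ^ j * ψ (2 ^ j)) ≤ (2 : ℝ) ^ j * GG ψ b (2 ^ j) := by
  unfold GG
  rw [mul_min_of_nonneg _ _ (by positivity)]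
  apply min_le_min
  · push_cast
    rw [mul_one_div_cancel (by positivity)]
  · apply mul_le_mul_of_nonneg_left (le_max_left _ _) (by positivity)

/-- the radii -/
def psiP (ψ : ℕ → ℝ) (b : ℝ) (K C0 m : ℕ) (p : PP (Fin (m + 1))) : ℝ :=
  1 / 2 * GG ψ b (C0 * (2 ^ (K * p.1) * ∏ i, p.2 i))

lemma prod_pos' {m : ℕ} (a : Fin (m + 1) → ℕ) (h : ∀ i, 1 ≤ a i) : 1 ≤ ∏ i, a i := by
  apply Nat.one_le_iff_ne_zero.mpr
  rw [Finset.prod_ne_zero_iff]
  intro i _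
  have := h i
  omega

lemma rad_psiP (ψ : ℕ → ℝ) (hψ : Antitone ψ) (K C0 m s0 : ℕ) (hK : 1 ≤ K) (hC0 : 1 ≤ C0)
    (hs0 : C0 ≤ s0) :
    Rad K (2 * m + 5) s0 (1 / 2) (psiP ψ (1 + 1 / (K : ℝ)) K C0 m) := by
  have hK' : (0 : ℝ) < K := by exact_mod_cast hK
  have hb : (1 : ℝ) ≤ 1 + 1 / (K : ℝ) := by
    have : 0 < 1 / (K : ℝ) := by positivity
    linarith
  have hX : ∀ p : PP (Fin (m + 1)), (∀ i, 1 ≤ p.2 i) → 1 ≤ C0 * (2 ^ (K * p.1) * ∏ i, p.2 i) := by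
    intro p hp
    have h1 := prod_pos' p.2 hp
    have h2 : 1 ≤ 2 ^ (K * p.1) := Nat.one_le_two_pow
    have : 0 < C0 * (2 ^ (K * p.1) * ∏ i, p.2 i) := by positivity
    exact this
  constructor
  · intro p _ hp2
    have hp := fun i => (hp2 i).1
    have h1 := prod_pos' p.2 hp
    have h2 : Qf K p ≤ C0 * (2 ^ (K * p.1) * ∏ i, p.2 i) := by
      unfold Qf
      calc 2 ^ (K * p.1) = 1 * (2 ^ (K * p.1) * 1) := by ring
        _ ≤ C0 * (2 ^ (K * p.1) * ∏ i, p.2 i) := by gcongr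
    have hQ : (0 : ℝ) < Qf K p := by exact_mod_cast Qf_pos K p
    unfold psiP
    have h3 : GG ψ (1 + 1 / (K : ℝ)) (C0 * (2 ^ (K * p.1) * ∏ i, p.2 i)) ≤ 1 / (Qf K p : ℝ) := by
      refine (min_le_left _ _).trans ?_
      apply one_div_le_one_div_of_le hQ
      exact_mod_cast h2
    calc 1 / 2 * GG ψ (1 + 1 / (K : ℝ)) (C0 * (2 ^ (K * p.1) * ∏ i, p.2 i))
        ≤ 1 / 2 * (1 / (Qf K p : ℝ)) := by gcongr
      _ = _ := by ring
  · intro p hs hp2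
    have hp := fun i => (hp2 i).1
    have h1 := GG_low ψ (1 + 1 / (K : ℝ)) hb _ (hX p hp)
    unfold psiP
    refine le_trans ?_ (mul_le_mul_of_nonneg_left h1 (by norm_num : (0 : ℝ) ≤ 1 / 2))
    have h2 : C0 * (2 ^ (K * p.1) * ∏ i, p.2 i) ≤ 2 ^ ((K + m + 2) * p.1) := by
      have h3 : C0 ≤ 2 ^ p.1 := by
        calc C0 ≤ 2 ^ C0 := Nat.lt_two_pow_self.le
          _ ≤ 2 ^ p.1 := Nat.pow_le_pow_right (by norm_num) (hs0.trans hs)
      have h4 : ∏ i, p.2 i ≤ 2 ^ ((m + 1) * p.1) := by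
        calc ∏ i, p.2 i ≤ ∏ _i : Fin (m + 1), 2 ^ p.1 :=
              Finset.prod_le_prod (fun i _ => Nat.zero_le _) (fun i _ => (hp2 i).2)
          _ = _ := by
              rw [Finset.prod_const, Finset.card_univ, Fintype.card_fin, ← pow_mul, mul_comm]
      calc C0 * (2 ^ (K * p.1) * ∏ i, p.2 i) ≤ 2 ^ p.1 * (2 ^ (K * p.1) * 2 ^ ((m + 1) * p.1)) := by
            gcongr
        _ = _ := by rw [← pow_add, ← pow_add]; congr 1; ring
    have h5 : ((C0 * (2 ^ (K * p.1) * ∏ i, p.2 i) : ℕ) : ℝ) ≤ (2 : ℝ) ^ ((K + m + 2) * p.1) := by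
      exact_mod_cast h2
    have h6 : (0 : ℝ) < ((C0 * (2 ^ (K * p.1) * ∏ i, p.2 i) : ℕ) : ℝ) := by
      exact_mod_cast hX p hp
    have h7 : ((C0 * (2 ^ (K * p.1) * ∏ i, p.2 i) : ℕ) : ℝ) ^ (1 + 1 / (K : ℝ)) ≤
        (Qf K p : ℝ) * 2 ^ ((2 * m + 5) * p.1) := by
      calc ((C0 * (2 ^ (K * p.1) * ∏ i, p.2 i) : ℕ) : ℝ) ^ (1 + 1 / (K : ℝ)) ≤
          ((2 : ℝ) ^ ((K + m + 2) * p.1)) ^ (1 + 1 / (K : ℝ)) := by
            apply Real.rpow_le_rpow h6.le h5 (by linarith)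
        _ = (2 : ℝ) ^ ((((K + m + 2) * p.1 : ℕ) : ℝ) * (1 + 1 / (K : ℝ))) := by
            rw [← Real.rpow_natCast, ← Real.rpow_mul (by norm_num)]
        _ ≤ (2 : ℝ) ^ (((K * p.1 + (2 * m + 5) * p.1 : ℕ)) : ℝ) := by
            apply Real.rpow_le_rpow_of_exponent_le (by norm_num)
            push_cast
            have h8 : (K : ℝ) * (1 / K) = 1 := mul_one_div_cancel hK'.ne'
            have h9 : (1 : ℝ) / K ≤ 1 := by
              rw [div_le_one hK']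
              exact_mod_cast hK
            have h10 : (0 : ℝ) ≤ p.1 := Nat.cast_nonneg _
            have h11 : (0 : ℝ) ≤ m := Nat.cast_nonneg _
            have e : ((K : ℝ) + m + 2) * p.1 * (1 + 1 / (K : ℝ)) =
                ((K : ℝ) + m + 2) * p.1 + (K * (1 / K)) * p.1 + ((m : ℝ) + 2) * p.1 * (1 / K) := by
              ring
            rw [e, h8]
            have h12 : ((m : ℝ) + 2) * p.1 * (1 / K) ≤ ((m : ℝ) + 2) * p.1 * 1 := by gcongr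
            linarith
        _ = _ := by
            rw [Real.rpow_natCast, pow_add]
            unfold Qf
            push_cast
            rfl
    rw [Real.rpow_neg h6.le]
    have hQ : (0 : ℝ) < Qf K p := by exact_mod_cast Qf_pos K p
    rw [div_eq_mul_inv]
    apply mul_le_mul_of_nonneg_left _ (by norm_num)
    apply inv_anti₀ (by positivity) h7
  · intro p p' _ h1 h2 h3
    unfold psiP
    apply mul_le_mul_of_nonneg_left _ (by norm_num)
    apply GG_anti ψ hψ _ (by linarith) _ _ (hX p' h2)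
    have h4 : ∏ i, p'.2 i ≤ ∏ i, p.2 i :=
      Finset.prod_le_prod (fun i _ => Nat.zero_le _) (fun i _ => h3 i)
    have h5 : 2 ^ (K * p'.1) ≤ 2 ^ (K * p.1) :=
      Nat.pow_le_pow_right (by norm_num) (Nat.mul_le_mul_left _ h1)
    gcongr

lemma tendsto_psiP (ψ : ℕ → ℝ) (hψ : Antitone ψ) (h0 : ∀ n, 0 ≤ ψ n) (b : ℝ) (hb : 0 ≤ b)
    (K C0 m s0 : ℕ) (hK : 1 ≤ K) (hC0 : 1 ≤ C0)
    (hdiv : ¬ Summable (fun n : ℕ => ψ n * Real.log n ^ (m + 1))) :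
    Tendsto (fun M => ∑ p ∈ JJ (Fin (m + 1)) s0 M, (Qf K p : ℝ) * psiP ψ b K C0 m p)
      atTop atTop := by
  have h := tendsto_T m K s0 C0 hK hC0 ψ hψ h0 hdiv (GG ψ b)
    (fun x y hx hxy => GG_anti ψ hψ b hb x y hx hxy) (GG_nonneg ψ b) (GG_two ψ b)
  have h2 := h.const_mul_atTop (by norm_num : (0 : ℝ) < 1 / 2)
  refine h2.congr ?_
  intro M
  rw [JJ, Finset.sum_sigma, Finset.mul_sum]
  apply Finset.sum_congr rfl
  intro s _
  rw [Finset.mul_sum]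
  apply Finset.sum_congr rfl
  intro a _
  unfold psiP Qf
  simp only
  push_cast
  ring

/-- the linear form -/
def LF (m : ℕ) (α : Fin (m + 1) → ℝ) (n : Fin (m + 2) → ℤ) (t : ℝ) : ℝ :=
  ∑ i : Fin (m + 1), (n (Fin.castSucc i) : ℝ) * α i + (n (Fin.last (m + 1)) : ℝ) * t

lemma Hn_snoc_le (m K P : ℕ) (hP : 0 < P) (s : ℕ) (a : Fin (m + 1) → ℕ) (ha : ∀ i, 1 ≤ a i)
    (q : ℕ) (hq : q < 2 * 2 ^ (K * s)) :
    Hn (Fin.snoc (fun l => (a l : ℤ)) ((P * q : ℕ) : ℤ) : Fin (m + 2) → ℤ) ≤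
      (2 ^ (m + 2) * P) * (2 ^ (K * s) * ∏ i, a i) := by
  unfold Hn
  rw [Fin.prod_univ_castSucc]
  simp only [Fin.snoc_castSucc, Fin.snoc_last, Int.natAbs_natCast]
  have h1 : ∏ i, max (a i) 2 ≤ 2 ^ (m + 1) * ∏ i, a i := by
    calc ∏ i, max (a i) 2 ≤ ∏ i, (2 * a i) := by
          apply Finset.prod_le_prod (fun i _ => Nat.zero_le _)
          intro i _
          have := ha i
          apply max_le <;> omega
      _ = _ := by rw [Finset.prod_mul_distrib, Finset.prod_const, Finset.card_univ, Fintype.card_fin]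
  have h2 : max (P * q) 2 ≤ 2 * P * 2 ^ (K * s) := by
    apply max_le
    · calc P * q ≤ P * (2 * 2 ^ (K * s)) := Nat.mul_le_mul_left _ hq.le
        _ = _ := by ring
    · have h3 : 1 ≤ 2 ^ (K * s) := Nat.one_le_two_pow
      have h4 : 1 ≤ P := hP
      calc 2 = 2 * 1 * 1 := by norm_num
        _ ≤ _ := by gcongr
  calc _ ≤ (2 ^ (m + 1) * ∏ i, a i) * (2 * P * 2 ^ (K * s)) := Nat.mul_le_mul h1 h2
    _ = _ := by ring

theorem core (m : ℕ) (ψ : ℕ → ℝ) (hψ : Antitone ψ) (h0 : ∀ n, 0 ≤ ψ n)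
    (hdiv : ¬ Summable (fun n : ℕ => ψ n * Real.log n ^ (m + 1)))
    (α : Fin (m + 1) → ℝ) (w : ℕ) (c : ℝ) (hc : 0 < c) (hD : DioW α w c) :
    ∀ᵐ t : ℝ ∂volume, {n : Fin (m + 2) → ℤ | (∀ i, 0 < n i) ∧
      nn (LF m α n t) < ψ (Hn n)}.Infinite := by
  set L := 2 * m + 5 with hL
  set E := 3 * Fintype.card (Fin (m + 1)) + L + 3 with hE
  set B := w * Fintype.card (Fin (m + 1)) * (E + 3) + 1 with hB
  set K := 5 + 2 * B + w * Fintype.card (Fin (m + 1)) * (B + L + 2) +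
    w * Fintype.card (Fin (m + 1)) + L with hK
  have hK1 : 1 ≤ K := by omega
  set b : ℝ := 1 + 1 / (K : ℝ) with hb
  have hKp : (0 : ℝ) < K := by exact_mod_cast hK1
  have hb1 : 1 < b := by
    have : 0 < 1 / (K : ℝ) := by positivity
    rw [hb]; linarith
  obtain ⟨s1, hs1, hpm⟩ := posmeas_gen α c hc w hD K L E B (le_refl _) (le_refl _) (by omega) (by omega)
  have hgood : ∀ᵐ t : ℝ ∂volume, {n : Fin (m + 2) → ℤ | (∀ i, 0 < n i) ∧
      nn (LF m α n t) < max (ψ (Hn n)) (((Hn n : ℕ) : ℝ) ^ (-b))}.Infinite := by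
    apply ae_of_scaled _ (1 / 1000) (by norm_num) (by norm_num)
    intro P hP
    set C0 := 2 ^ (m + 2) * P with hC0
    have hC01 : 1 ≤ C0 := by
      have : 0 < C0 := by positivity
      exact this
    set s0 := s1 + C0 with hs0
    have hR : Rad K L s0 (1 / 2) (psiP ψ b K C0 m) := rad_psiP ψ hψ K C0 m s0 hK1 hC01 (by omega)
    have hT := tendsto_psiP ψ hψ h0 b (by linarith) K C0 m s0 hK1 hC01 hdiv
    obtain ⟨W, hWm, hWv, hWi⟩ := hpm s0 (by omega) (1 / 2) (by norm_num) (le_refl _) _ hR hT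
    refine ⟨W, hWm, hWv, ?_⟩
    intro t ht
    have hinf := hWi _ ht
    let Φ : (Σ _ : PP (Fin (m + 1)), ℕ) → (Fin (m + 2) → ℤ) := fun i =>
      (Fin.snoc (fun l => (i.1.2 l : ℤ)) ((P * i.2 : ℕ) : ℤ) : Fin (m + 2) → ℤ)
    have hinf' := Set.Infinite.image (f := Φ) (s := {i : Σ _ : PP (Fin (m + 1)), ℕ |
        (s0 ≤ i.1.1 ∧ (∀ l, 1 ≤ i.1.2 l ∧ i.1.2 l ≤ 2 ^ i.1.1)
        ∧ 2 ^ (K * i.1.1) ≤ i.2 ∧ i.2 < 2 * 2 ^ (K * i.1.1)) ∧
        ‖i.2 • (((P : ℝ) * t : ℝ) : UnitAddCircle) + (xf α i.1 : UnitAddCircle)‖ ≤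
          psiP ψ b K C0 m i.1}) (by
      rintro ⟨⟨s1, a1⟩, q1⟩ h1 ⟨⟨s2, a2⟩, q2⟩ h2 heq
      simp only [Set.mem_ofPred_eq] at h1 h2
      have haa : a1 = a2 := by
        funext l
        have := congrFun heq (Fin.castSucc l)
        simp only [Φ, Fin.snoc_castSucc] at this
        exact_mod_cast this
      have hqq : q1 = q2 := by
        have := congrFun heq (Fin.last (m + 1))
        simp only [Φ, Fin.snoc_last] at this
        have h3 : P * q1 = P * q2 := by exact_mod_cast this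
        exact Nat.eq_of_mul_eq_mul_left hP h3
      subst haa
      subst hqq
      have e1 : 2 ^ (K * s1) < 2 ^ (K * s2 + 1) := by
        calc 2 ^ (K * s1) ≤ q1 := h1.1.2.2.1
          _ < 2 * 2 ^ (K * s2) := h2.1.2.2.2
          _ = _ := by ring
      have e2 : 2 ^ (K * s2) < 2 ^ (K * s1 + 1) := by
        calc 2 ^ (K * s2) ≤ q1 := h2.1.2.2.1
          _ < 2 * 2 ^ (K * s1) := h1.1.2.2.2
          _ = _ := by ring
      have e3 := (Nat.pow_lt_pow_iff_right (by norm_num)).mp e1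
      have e4 := (Nat.pow_lt_pow_iff_right (by norm_num)).mp e2
      have e5 : K * s1 = K * s2 := by omega
      have e6 : s1 = s2 := Nat.eq_of_mul_eq_mul_left (by omega) e5
      subst e6
      rfl) hinf
    refine hinf'.mono ?_
    rintro _ ⟨⟨⟨s, a⟩, q⟩, ⟨⟨h1, h2, h3, h4⟩, h5⟩, rfl⟩
    simp only at h1 h2 h3 h4 h5
    have hq0 : 0 < q := lt_of_lt_of_le (by positivity) h3
    have ha : ∀ i, 1 ≤ a i := fun i => (h2 i).1
    have e1 : q • (((P : ℝ) * t : ℝ) : UnitAddCircle) +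
        (xf α (⟨s, a⟩ : PP (Fin (m + 1))) : UnitAddCircle) =
        ((LF m α (Φ ⟨⟨s, a⟩, q⟩) t : ℝ) : UnitAddCircle) := by
      have e0 : LF m α (Φ ⟨⟨s, a⟩, q⟩) t =
          (q : ℝ) * ((P : ℝ) * t) + xf α (⟨s, a⟩ : PP (Fin (m + 1))) := by
        unfold xf LF
        simp only [Φ, Fin.snoc_castSucc, Fin.snoc_last]
        push_cast
        ring
      rw [e0, AddCircle.coe_add]
      congr 1
      simp
    rw [e1, ← nn_eq_norm] at h5
    refine ⟨?_, ?_⟩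
    · intro i
      refine Fin.lastCases ?_ (fun i => ?_) i
      · simp only [Φ, Fin.snoc_last]
        have : 0 < P * q := Nat.mul_pos hP hq0
        exact_mod_cast this
      · simp only [Φ, Fin.snoc_castSucc]
        exact_mod_cast ha i
    · refine lt_of_le_of_lt h5 ?_
      have h6 := Hn_snoc_le m K P hP s a ha q h4
      have h7 : Hn (Φ ⟨⟨s, a⟩, q⟩) ≤ C0 * (2 ^ (K * s) * ∏ i, a i) := h6
      have h8 := GG_anti ψ hψ b (by linarith) _ _ (Hn_pos (Φ ⟨⟨s, a⟩, q⟩)) h7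
      have h9 : GG ψ b (Hn (Φ ⟨⟨s, a⟩, q⟩)) ≤ max (ψ (Hn (Φ ⟨⟨s, a⟩, q⟩)))
          (((Hn (Φ ⟨⟨s, a⟩, q⟩) : ℕ) : ℝ) ^ (-b)) := min_le_right _ _
      have h10 : 0 < max (ψ (Hn (Φ ⟨⟨s, a⟩, q⟩))) (((Hn (Φ ⟨⟨s, a⟩, q⟩) : ℕ) : ℝ) ^ (-b)) := by
        apply lt_max_of_lt_right
        apply Real.rpow_pos_of_pos
        exact_mod_cast Hn_pos _
      unfold psiP
      simp only
      linarith
  have hbc := ae_finite m (fun n => ((Hn n : ℕ) : ℝ) ^ (-b)) (fun n => by positivity)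
    (summable_Hn (m + 2) b hb1) α
  filter_upwards [hgood, hbc] with t ht1 ht2
  by_contra hcon
  rw [Set.not_infinite] at hcon
  apply ht1
  refine (hcon.union ht2).subset ?_
  rintro n ⟨h1, h2⟩
  by_cases h3 : nn (LF m α n t) < ψ (Hn n)
  · exact Or.inl ⟨h1, h3⟩
  · right
    refine ⟨(h1 _).ne', ?_⟩
    rcases lt_max_iff.mp h2 with h4 | h4
    · exact absurd h4 h3
    · exact h4

end

end Pool.Agent.Lib.MP_04276e_nt.Ins
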