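import Mathlib
import Pool.Agent.Lib.MP_04276e_nt.Ins.Core
import Pool.Agent.Lib.MP_04276e_nt.Ins.Conv

set_option autoImplicit false

namespace Pool.Agent.Lib.MP_04276e_nt.Ins

open MeasureTheory Finset Filter

noncomputable section

/-- a real exponent gives a natural exponent -/
lemma dioW_of_real {ι : Type*} [Fintype ι] (α : ι → ℝ) (c C : ℝ)
    (h : ∀ v : ι → ℤ, v ≠ 0 → c * (∏ i, max |(v i : ℝ)| 2) ^ (-C) ≤ nn (∑ i, (v i : ℝ) * α i)) :
    DioW α ⌈C⌉₊ c := by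
  intro v hv
  set H := ∏ i, max |(v i : ℝ)| 2 with hH
  have hH1 : 1 ≤ H := HH_ge_one v
  have h1 := h v hv
  have hH0 : 0 < H := by linarith
  have h2 : H ^ C ≤ H ^ ⌈C⌉₊ := by
    rw [← Real.rpow_natCast]
    exact Real.rpow_le_rpow_of_exponent_le hH1 (Nat.le_ceil C)
  have h3 : 0 < H ^ C := Real.rpow_pos_of_pos hH0 C
  have h4 : c * H ^ (-C) * H ^ C = c := by
    rw [mul_assoc, ← Real.rpow_add hH0, neg_add_cancel, Real.rpow_zero, mul_one]
  calc c = c * H ^ (-C) * H ^ C := h4.symm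
    _ ≤ nn (∑ i, (v i : ℝ) * α i) * H ^ C := by gcongr
    _ ≤ nn (∑ i, (v i : ℝ) * α i) * H ^ ⌈C⌉₊ := by
        apply mul_le_mul_of_nonneg_left h2 (nn_nonneg _)

lemma finite_Hn_lt (k n0 : ℕ) : {v : Fin k → ℤ | Hn v < n0}.Finite := by
  apply (Set.finite_Icc (fun _ : Fin k => -(n0 : ℤ)) (fun _ => (n0 : ℤ))).subset
  intro v hv
  have hv' : Hn v < n0 := hv
  have h1 : ∀ i, (v i).natAbs < n0 := by
    intro i
    refine lt_of_le_of_lt ?_ hv'
    refine (le_max_left _ 2).trans ?_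
    unfold Hn
    apply Nat.le_of_dvd
    · exact Hn_pos v
    · exact Finset.dvd_prod_of_mem (fun i => max (v i).natAbs 2) (Finset.mem_univ i)
  constructor
  · intro i
    have := h1 i
    change -(n0 : ℤ) ≤ v i
    omega
  · intro i
    have := h1 i
    change v i ≤ (n0 : ℤ)
    omega

lemma Hn_snoc_zero (m : ℕ) (v : Fin (m + 1) → ℤ) :
    Hn (Fin.snoc v 0 : Fin (m + 2) → ℤ) = 2 * Hn v := by
  unfold Hn
  rw [Fin.prod_univ_castSucc]
  simp only [Fin.snoc_castSucc, Fin.snoc_last, Int.natAbs_zero]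
  rw [mul_comm]
  rfl

lemma exists_dioW (m : ℕ) (α : Fin (m + 1) → ℝ) (ψ : ℕ → ℝ) (hψ : Antitone ψ) (C : ℝ)
    (hC : ∀ᶠ n : ℕ in atTop, (n : ℝ) ^ (-C) ≤ ψ n)
    (hfin : {v : Fin (m + 1) → ℤ | nn (∑ i, (v i : ℝ) * α i) < ψ (2 * Hn v)}.Finite) :
    ∃ (w : ℕ) (c : ℝ), 0 < c ∧ DioW α w c := by
  obtain ⟨n0, hn0⟩ := eventually_atTop.mp hC
  have hpos : ∀ n, 0 < ψ n := by
    intro n
    have h1 := hn0 (max n (n0 + 1)) (by omega)
    have h2 : (0 : ℝ) < ((max n (n0 + 1) : ℕ) : ℝ) := by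
      have : 0 < max n (n0 + 1) := by omega
      exact_mod_cast this
    have h3 := Real.rpow_pos_of_pos h2 (-C)
    have h4 := hψ (le_max_left n (n0 + 1))
    linarith
  set Bad := {v : Fin (m + 1) → ℤ | nn (∑ i, (v i : ℝ) * α i) < ψ (2 * Hn v)} with hBad
  set w := ⌈C⌉₊ with hw
  have hf := hfin.union (finite_Hn_lt (m + 1) n0)
  have hp : ∀ v ∈ (Bad ∪ {v | Hn v < n0}) \ {0},
      0 < nn (∑ i, (v i : ℝ) * α i) * (∏ i, max |(v i : ℝ)| 2) ^ w := by
    rintro v ⟨_, hv0⟩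
    have hH := HH_ge_one v
    rcases (nn_nonneg (∑ i, (v i : ℝ) * α i)).lt_or_eq with h | h
    · positivity
    · exfalso
      have hz : ∑ i, (v i : ℝ) * α i = round (∑ i, (v i : ℝ) * α i) := by
        unfold nn at h
        have := abs_eq_zero.mp h.symm
        linarith
      obtain ⟨l, hl⟩ : ∃ l, v l ≠ 0 := by
        by_contra hcon
        push Not at hcon
        exact hv0 (by funext l; exact hcon l)
      have hinj : Function.Injective (fun j : ℤ => (fun i => j * v i : Fin (m + 1) → ℤ)) := by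
        intro j j' hjj
        have := congrFun hjj l
        exact mul_right_cancel₀ hl this
      have hsub : Set.range (fun j : ℤ => (fun i => j * v i : Fin (m + 1) → ℤ)) ⊆ Bad := by
        rintro _ ⟨j, rfl⟩
        have e1 : ∑ i, (((j * v i : ℤ)) : ℝ) * α i = ((j * round (∑ i, (v i : ℝ) * α i) : ℤ) : ℝ) := by
          push_cast
          rw [← hz, Finset.mul_sum]
          apply Finset.sum_congr rfl
          intro i _
          ring
        change nn (∑ i, (((j * v i : ℤ)) : ℝ) * α i) < _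
        have h0 : nn (∑ i, (((j * v i : ℤ)) : ℝ) * α i) ≤ 0 := by
          rw [nn_le_iff]
          refine ⟨j * round (∑ i, (v i : ℝ) * α i), ?_⟩
          rw [e1, sub_self, abs_zero]
        exact h0.trans_lt (hpos _)
      exact (Set.infinite_range_of_injective hinj).mono hsub hfin
  obtain ⟨c1, hc1, h1⟩ := exists_pos_lower ((Bad ∪ {v | Hn v < n0}) \ {0})
    (hf.subset Set.sdiff_subset)
    (fun v => nn (∑ i, (v i : ℝ) * α i) * (∏ i, max |(v i : ℝ)| 2) ^ w) hp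
  refine ⟨w, min c1 (1 / 2 ^ w), by positivity, ?_⟩
  intro v hv
  by_cases hvB : v ∈ Bad ∪ {v | Hn v < n0}
  · exact (min_le_left _ _).trans (h1 v ⟨hvB, hv⟩)
  · refine (min_le_right _ _).trans ?_
    have hv1 : v ∉ Bad := fun h => hvB (Or.inl h)
    have hv2 : ¬ Hn v < n0 := fun h => hvB (Or.inr h)
    have h2 : ψ (2 * Hn v) ≤ nn (∑ i, (v i : ℝ) * α i) := not_lt.mp hv1
    have h3 := hn0 (2 * Hn v) (by omega)
    have hH := Hn_cast v
    set H := ∏ i, max |(v i : ℝ)| 2 with hHd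
    have hH1 : 1 ≤ H := HH_ge_one v
    have hc : ((2 * Hn v : ℕ) : ℝ) = 2 * H := by
      push_cast
      rw [hH]
    rw [hc] at h3
    have h20 : 0 < 2 * H := by linarith
    have h4 : (2 * H) ^ C ≤ (2 * H) ^ w := by
      rw [← Real.rpow_natCast]
      exact Real.rpow_le_rpow_of_exponent_le (by linarith) (Nat.le_ceil C)
    have h5 : 1 / (2 * H) ^ w ≤ nn (∑ i, (v i : ℝ) * α i) := by
      refine le_trans ?_ (h3.trans h2)
      rw [Real.rpow_neg h20.le, one_div]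
      exact inv_anti₀ (Real.rpow_pos_of_pos h20 C) h4
    calc (1 : ℝ) / 2 ^ w = 1 / (2 * H) ^ w * H ^ w := by
          rw [mul_pow]
          field_simp
      _ ≤ nn (∑ i, (v i : ℝ) * α i) * H ^ w := by gcongr

/-- divergence, arbitrary fixed coordinates -/
theorem diverge_all (m : ℕ) (α : Fin (m + 1) → ℝ) (ψ : ℕ → ℝ) (hψ : Antitone ψ)
    (h0 : ∀ n, 0 ≤ ψ n) (hdiv : ¬ Summable (fun n : ℕ => ψ n * Real.log n ^ (m + 1)))
    (hC : ∃ C : ℝ, ∀ᶠ n : ℕ in atTop, (n : ℝ) ^ (-C) ≤ ψ n) :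
    ∀ᵐ t : ℝ ∂volume, {n : Fin (m + 2) → ℤ | nn (LF m α n t) < ψ (Hn n)}.Infinite := by
  obtain ⟨C, hC⟩ := hC
  by_cases hfin : {v : Fin (m + 1) → ℤ | nn (∑ i, (v i : ℝ) * α i) < ψ (2 * Hn v)}.Finite
  · obtain ⟨w, c, hc, hD⟩ := exists_dioW m α ψ hψ C hC hfin
    filter_upwards [core m ψ hψ h0 hdiv α w c hc hD] with t ht
    exact ht.mono (fun n hn => hn.2)
  · apply Filter.Eventually.of_forall
    intro t
    have hinj : Function.Injective (fun v : Fin (m + 1) → ℤ => (Fin.snoc v 0 : Fin (m + 2) → ℤ)) := by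
      intro v w hvw
      funext i
      have := congrFun hvw (Fin.castSucc i)
      simpa using this
    have hinf := Set.Infinite.image hinj.injOn hfin
    refine hinf.mono ?_
    rintro _ ⟨v, hv, rfl⟩
    have hv' : nn (∑ i, (v i : ℝ) * α i) < ψ (2 * Hn v) := hv
    rw [Set.mem_ofPred_eq, Hn_snoc_zero]
    unfold LF
    simp only [Fin.snoc_castSucc, Fin.snoc_last, Int.cast_zero, zero_mul, add_zero]
    exact hv'

/-- divergence, all monotone functions -/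
theorem diverge_pos (m : ℕ) (α : Fin (m + 1) → ℝ) (ψ : ℕ → ℝ) (hψ : Antitone ψ)
    (h0 : ∀ n, 0 ≤ ψ n) (hdiv : ¬ Summable (fun n : ℕ => ψ n * Real.log n ^ (m + 1)))
    (hα : ∃ c C : ℝ, 0 < c ∧ ∀ v : Fin (m + 1) → ℤ, v ≠ 0 →
      c * (∏ i, max |(v i : ℝ)| 2) ^ (-C) ≤ nn (∑ i, (v i : ℝ) * α i)) :
    ∀ᵐ t : ℝ ∂volume, {n : Fin (m + 2) → ℤ | (∀ i, 0 < n i) ∧
      nn (LF m α n t) < ψ (Hn n)}.Infinite := by
  obtain ⟨c, C, hc, h⟩ := hα
  exact core m ψ hψ h0 hdiv α _ c hc (dioW_of_real α c C h)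

/-- convergence -/
theorem converge_all (m : ℕ) (α : Fin (m + 1) → ℝ) (ψ : ℕ → ℝ) (hψ : Antitone ψ)
    (h0 : ∀ n, 0 ≤ ψ n) (hconv : Summable (fun n : ℕ => ψ n * Real.log n ^ (m + 1))) :
    ∀ᵐ t : ℝ ∂volume, {n : Fin (m + 2) → ℤ | n (Fin.last (m + 1)) ≠ 0 ∧
      nn (LF m α n t) < ψ (Hn n)}.Finite :=
  ae_finite m (fun n => ψ (Hn n)) (fun _ => h0 _) (summable_psi_Hn m ψ hψ h0 hconv) α

end

end Pool.Agent.Lib.MP_04276e_nt.Ins
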