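import Mathlib
import Pool.Agent.Lib.MP_04276e_nt.Ins.Gal

set_option autoImplicit false

namespace Pool.Agent.Lib.MP_04276e_nt.Ins

open MeasureTheory Finset Filter

noncomputable section

lemma Hn_ge_two (k : ℕ) (n : Fin (k + 1) → ℤ) : 2 ≤ Hn n := by
  unfold Hn
  rw [Fin.prod_univ_castSucc]
  have h1 : 1 ≤ ∏ i : Fin k, max (n (Fin.castSucc i)).natAbs 2 := Hn_pos (fun i => n (Fin.castSucc i))
  have h2 : 2 ≤ max (n (Fin.last k)).natAbs 2 := le_max_right _ _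
  calc 2 = 1 * 2 := by norm_num
    _ ≤ _ := Nat.mul_le_mul h1 h2

/-- divergence, with monotonicity and sign assumed from 2 on -/
theorem diverge (m : ℕ) (α : Fin (m + 1) → ℝ) (ψ : ℕ → ℝ)
    (hψ : ∀ a b : ℕ, 2 ≤ a → a ≤ b → ψ b ≤ ψ a)
    (h0 : ∀ n : ℕ, 2 ≤ n → 0 ≤ ψ n)
    (hdiv : ¬ Summable (fun n : ℕ => ψ n * Real.log n ^ (m + 1)))
    (h : (∃ C : ℝ, ∀ᶠ n : ℕ in atTop, (n : ℝ) ^ (-C) ≤ ψ n) ∨
      (∃ c C : ℝ, 0 < c ∧ ∀ v : Fin (m + 1) → ℤ, v ≠ 0 →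
        c * (∏ i, max |(v i : ℝ)| 2) ^ (-C) ≤ nn (∑ i, (v i : ℝ) * α i))) :
    ∀ᵐ t : ℝ ∂volume, {n : Fin (m + 2) → ℤ | nn (LF m α n t) < ψ (Hn n)}.Infinite := by
  set ψ' : ℕ → ℝ := fun n => ψ (max n 2) with hψ'
  have hanti : Antitone ψ' := by
    intro a b hab
    exact hψ _ _ (le_max_right a 2) (max_le_max_right 2 hab)
  have hpos : ∀ n, 0 ≤ ψ' n := fun n => h0 _ (le_max_right n 2)
  have hdiv' : ¬ Summable (fun n : ℕ => ψ' n * Real.log n ^ (m + 1)) := by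
    intro hs
    apply hdiv
    refine hs.congr ?_
    intro n
    rcases Nat.lt_or_ge n 2 with h1 | h1
    · have h2 : Real.log (n : ℝ) = 0 := by
        interval_cases n <;> simp
      rw [h2, zero_pow (by omega), mul_zero, mul_zero]
    · simp only [hψ', max_eq_left h1]
  have key : ∀ᵐ t : ℝ ∂volume, {n : Fin (m + 2) → ℤ | nn (LF m α n t) < ψ' (Hn n)}.Infinite := by
    rcases h with ⟨C, hC⟩ | h
    · apply diverge_all m α ψ' hanti hpos hdiv' ⟨C, ?_⟩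
      filter_upwards [hC, eventually_ge_atTop 2] with n hn hn2
      simp only [hψ', max_eq_left hn2]
      exact hn
    · filter_upwards [diverge_pos m α ψ' hanti hpos hdiv' h] with t ht
      exact ht.mono (fun n hn => hn.2)
  filter_upwards [key] with t ht
  refine ht.mono ?_
  intro n hn
  have h1 : ψ' (Hn n) = ψ (Hn n) := by
    simp only [hψ', max_eq_left (Hn_ge_two (m + 1) n)]
  rw [Set.mem_ofPred_eq] at hn ⊢
  rwa [h1] at hn

end

end Pool.Agent.Lib.MP_04276e_nt.Ins
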