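import Mathlib
import Pool.Agent.Lib.MP_04276e_nt.Ins.Fin

/-!
The inequality of the problem as the case `ψ n = 1 / (n * (log n) ^ (m + 2))`.
-/

set_option autoImplicit false

namespace Pool.Agent.Lib.MP_04276e_nt.Ins

open MeasureTheory Finset Filter

noncomputable section

def psiQ (m : ℕ) (n : ℕ) : ℝ := 1 / ((n : ℝ) * Real.log (n : ℝ) ^ (m + 2))

lemma psiQ_anti (m : ℕ) (a b : ℕ) (ha : 2 ≤ a) (hab : a ≤ b) : psiQ m b ≤ psiQ m a := by
  have ha' : (1 : ℝ) < a := by exact_mod_cast ha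
  have hab' : (a : ℝ) ≤ b := by exact_mod_cast hab
  have hl := Real.log_pos ha'
  have hl2 := Real.log_le_log (by linarith) hab'
  unfold psiQ
  apply one_div_le_one_div_of_le (by positivity)
  gcongr

lemma psiQ_nonneg (m : ℕ) (n : ℕ) : 0 ≤ psiQ m n := by
  unfold psiQ
  have := Real.log_natCast_nonneg n
  positivity

lemma psiQ_div (m : ℕ) : ¬ Summable (fun n : ℕ => psiQ m n * Real.log (n : ℝ) ^ (m + 1)) := by
  intro hs
  set ψ' : ℕ → ℝ := fun n => psiQ m (max n 2) with hψ'
  have hanti : Antitone ψ' := by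
    intro a b hab
    exact psiQ_anti m _ _ (le_max_right a 2) (max_le_max_right 2 hab)
  have hs' : Summable (fun n : ℕ => ψ' n * Real.log n ^ (m + 1)) := by
    refine hs.congr ?_
    intro n
    rcases Nat.lt_or_ge n 2 with h1 | h1
    · have h2 : Real.log (n : ℝ) = 0 := by
        interval_cases n <;> simp
      rw [h2, zero_pow (by omega), mul_zero, mul_zero]
    · simp only [hψ', max_eq_left h1]
  have h1 := condense_rev ψ' hanti (fun n => psiQ_nonneg m _) (m + 1) hs'
  have h2 : Summable (fun j : ℕ => 1 / (((j + 1 : ℕ)) : ℝ)) := by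
    rw [← summable_nat_add_iff 1]
    rw [← summable_nat_add_iff 1] at h1
    refine Summable.of_nonneg_of_le (fun j => by positivity) ?_ h1
    intro j
    have h3 : ψ' (2 ^ (j + 1)) = psiQ m (2 ^ (j + 1)) := by
      have : 2 ≤ 2 ^ (j + 1) := by
        calc 2 = 2 ^ 1 := by norm_num
          _ ≤ _ := Nat.pow_le_pow_right (by norm_num) (by omega)
      simp only [hψ', max_eq_left this]
    rw [h3]
    unfold psiQ
    push_cast
    rw [Real.log_pow]
    have hl0 : 0 < Real.log 2 := Real.log_pos (by norm_num)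
    have hl1 : Real.log 2 ≤ 1 := by
      have := Real.log_two_lt_d9
      linarith
    push_cast
    have hj : (0 : ℝ) < (j : ℝ) + 1 := by positivity
    have e1 : (2 : ℝ) ^ (j + 1) * (1 / (2 ^ (j + 1) * (((j : ℝ) + 1) * Real.log 2) ^ (m + 2))) *
        ((j : ℝ) + 1 + 1) ^ (m + 1) =
        ((j : ℝ) + 1 + 1) ^ (m + 1) / (((j : ℝ) + 1) * Real.log 2) ^ (m + 2) := by
      field_simp
    rw [e1, div_le_div_iff₀ (by positivity) (by positivity), one_mul]
    calc (((j : ℝ) + 1) * Real.log 2) ^ (m + 2) ≤ (((j : ℝ) + 1) * 1) ^ (m + 2) := by gcongr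
      _ ≤ ((j : ℝ) + 1 + 1) ^ (m + 2) := by
          apply pow_le_pow_left₀ (by positivity)
          linarith
      _ = _ := by rw [pow_succ]
  have h4 : Summable (fun j : ℕ => 1 / ((j : ℕ) : ℝ)) := by
    rw [← summable_nat_add_iff 1]
    exact h2
  exact Real.not_summable_one_div_natCast h4

lemma psiQ_low (m : ℕ) : ∃ C : ℝ, ∀ᶠ n : ℕ in atTop, (n : ℝ) ^ (-C) ≤ psiQ m n := by
  refine ⟨((m + 3 : ℕ) : ℝ), ?_⟩
  filter_upwards [eventually_ge_atTop 2] with n hn
  have hn' : (1 : ℝ) < n := by exact_mod_cast hn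
  have hl := Real.log_pos hn'
  unfold psiQ
  rw [Real.rpow_neg (by linarith), Real.rpow_natCast, ← one_div]
  apply one_div_le_one_div_of_le (by positivity)
  have h1 : Real.log n ≤ n := (Real.log_le_sub_one_of_pos (by linarith)).trans (by linarith)
  calc (n : ℝ) * Real.log n ^ (m + 2) ≤ (n : ℝ) * (n : ℝ) ^ (m + 2) := by gcongr
    _ = _ := by ring

/-- the statement of the problem -/
theorem q1 (m : ℕ) (α : Fin (m + 1) → ℝ) :
      ∀ᵐ t : ℝ ∂MeasureTheory.volume,
        Set.Infinite {n : Fin (m + 2) → ℤ |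
          |(∑ i : Fin (m + 1), (n (Fin.castSucc i) : ℝ) * α i
              + (n (Fin.last (m + 1)) : ℝ) * t)
            - (round (∑ i : Fin (m + 1), (n (Fin.castSucc i) : ℝ) * α i
              + (n (Fin.last (m + 1)) : ℝ) * t) : ℝ)|
          < 1 / ((∏ i : Fin (m + 2), max |(n i : ℝ)| 2)
              * (Real.log (∏ i : Fin (m + 2), max |(n i : ℝ)| 2)) ^ (m + 2))} := by
  have h := diverge m α (psiQ m) (psiQ_anti m) (fun n _ => psiQ_nonneg m n) (psiQ_div m)
    (Or.inl (psiQ_low m))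
  filter_upwards [h] with t ht
  refine ht.mono ?_
  intro n hn
  rw [Set.mem_ofPred_eq] at hn ⊢
  unfold psiQ at hn
  rw [Hn_cast] at hn
  exact hn

end

end Pool.Agent.Lib.MP_04276e_nt.Ins
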